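import Mathlib

open Filter Topology Asymptotics

namespace Pool.Agent.Helper395.AA

/-- `ρ : C^n → C^k = R^{2k}` is a real analytic (vector valued) defining function, near `0`, of a germ
at `0` of a real analytic submanifold `M = {ρ = 0}` of `C^n` containing `0`: `ρ` is real analytic at
`0`, vanishes at `0`, and its real differential at `0` is onto `C^k = R^{2k}`
(so `M` has real codimension `2k`). -/
structure IsDefining {n k : ℕ} (ρ : (Fin n → ℂ) → (Fin k → ℂ)) : Prop where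
  analytic : AnalyticAt ℝ ρ 0
  zero : ρ 0 = 0
  surj : Function.Surjective (fderiv ℝ ρ 0)

/-- `CRLie ρ X`: the real analytic vector field `X` near `0` belongs to the real Lie algebra
generated by the real (and imaginary) parts of the CR vector fields of `M = {ρ = 0}`. A generator
is a field `X`, real analytic near `0`, such that both `X` and `i X` are tangent to `M` at all
points of `M` near `0`; this says that `X + i·J X` (equivalently `X - i·J X`) is a CR vector field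
(resp. its conjugate) along `M`, and every CR vector field is of this form. -/
inductive CRLie {n k : ℕ} (ρ : (Fin n → ℂ) → (Fin k → ℂ)) :
    ((Fin n → ℂ) → (Fin n → ℂ)) → Prop
  | field (X : (Fin n → ℂ) → (Fin n → ℂ)) (hX : AnalyticAt ℝ X 0)
      (h : ∀ᶠ p in 𝓝 (0 : Fin n → ℂ), ρ p = 0 →
        fderiv ℝ ρ p (X p) = 0 ∧ fderiv ℝ ρ p (Complex.I • X p) = 0) : CRLie ρ X
  | bracket (X Y : (Fin n → ℂ) → (Fin n → ℂ)) (hX : CRLie ρ X) (hY : CRLie ρ Y) :
      CRLie ρ (VectorField.lieBracket ℝ X Y)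

/-- Finite type at `0` (Bloom–Graham–Kohn): the values at `0` of the iterated Lie brackets of
(the real and imaginary parts of) the CR vector fields of `M = {ρ = 0}` span the tangent space
`T_0 M = ker dρ(0)`. -/
def FiniteType {n k : ℕ} (ρ : (Fin n → ℂ) → (Fin k → ℂ)) : Prop :=
  ∀ v : Fin n → ℂ, fderiv ℝ ρ 0 v = 0 →
    v ∈ Submodule.span ℝ {w : Fin n → ℂ | ∃ X, CRLie ρ X ∧ X 0 = w}

/-- The value at `x` of the Taylor polynomial of order `K` (all terms of total degree `≤ K`) of the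
formal power series `φ`. -/
noncomputable def jetEval {σ : Type*} [Finite σ] (K : ℕ) (φ : MvPowerSeries σ ℂ) (x : σ → ℂ) : ℂ :=
  MvPolynomial.eval x (MvPowerSeries.truncTotal (K + 1) φ)

/-- The Taylor polynomial `j_0^K f` of order `K` of the formal map `f`, as a polynomial map
`C^n → C^N`. -/
noncomputable def jet {n N : ℕ} (K : ℕ) (f : Fin N → MvPowerSeries (Fin n) ℂ)
    (z : Fin n → ℂ) : Fin N → ℂ := fun j => jetEval K (f j) z

/-- `f` maps `M = {ρ = 0}` into `M' = {ρ' = 0}` formally: there is a matrix `a(z, z̄)` of formal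
power series in `(z, z̄)` with `ρ'(f(z), \overline{f(z)}) = a(z, z̄) ρ(z, z̄)` as formal power series
in `(z, z̄)`; equivalently, for every order `K ≥ 1`, when `f` and `a` are replaced by their Taylor
polynomials of order `K`, both sides agree up to `O(‖z‖^{K+1})`. -/
def MapsFormally {n N k k' : ℕ} (ρ : (Fin n → ℂ) → (Fin k → ℂ)) (ρ' : (Fin N → ℂ) → (Fin k' → ℂ))
    (f : Fin N → MvPowerSeries (Fin n) ℂ) : Prop :=
  ∃ a : Fin k' → Fin k → MvPowerSeries (Fin n ⊕ Fin n) ℂ, ∀ K : ℕ, 1 ≤ K →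
    (fun z : Fin n → ℂ => ρ' (jet K f z) - fun j =>
      ∑ i, jetEval K (a j i) (Sum.elim z fun l => (starRingEnd ℂ) (z l)) * ρ z i)
      =O[𝓝 0] fun z => ‖z‖ ^ (K + 1)

/-- `h` is a convergent holomorphic map germ `(C^n,0) → (C^N,0)` with `h(M) ⊂ M'` as germs at `0` and
with the same Taylor polynomial of order `ℓ` at `0` as the formal map `f`. -/
def Approximates {n N k k' : ℕ} (ρ : (Fin n → ℂ) → (Fin k → ℂ)) (ρ' : (Fin N → ℂ) → (Fin k' → ℂ))
    (f : Fin N → MvPowerSeries (Fin n) ℂ) (ℓ : ℕ) (h : (Fin n → ℂ) → (Fin N → ℂ)) : Prop :=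
  AnalyticAt ℂ h 0 ∧ (∀ᶠ z in 𝓝 (0 : Fin n → ℂ), ρ z = 0 → ρ' (h z) = 0) ∧
    (fun z => h z - jet ℓ f z) =O[𝓝 0] fun z => ‖z‖ ^ (ℓ + 1)

/-! ### The example -/

/-- exponents `(k+1)!` -/
def ex (k : ℕ) : ℕ := (k + 1).factorial

/-- `E(τ) = ∑ τ^{(k+1)!}` -/
noncomputable def E (τ : ℂ) : ℂ := ∑' k : ℕ, τ ^ ex k

/-- `t_k(τ) = ∑_{j>k} τ^{(j+1)!}` -/
noncomputable def tl (k : ℕ) (τ : ℂ) : ℂ := E τ - ∑ j ∈ Finset.range (k + 1), τ ^ ex j

/-- `c_k = 4^{(k+2)!}` -/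
noncomputable def cc (k : ℕ) : ℂ := 4 ^ ex (k + 1)

/-- `g(η,τ) = ∑_k c_k η^{(k+1)!} t_k(τ)` -/
noncomputable def gg (p : ℂ × ℂ) : ℂ := ∑' k : ℕ, cc k * p.1 ^ ex k * tl k p.2

/-- `τ(Z) = conj Z_3 + |Z_1|² + i |Z_2|²` -/
noncomputable def tau {m : ℕ} (Z : Fin (3 + m) → ℂ) : ℂ :=
  (starRingEnd ℂ) (Z (Fin.castAdd m 2)) + Z (Fin.castAdd m 0) * (starRingEnd ℂ) (Z (Fin.castAdd m 0))
    + Complex.I * (Z (Fin.castAdd m 1) * (starRingEnd ℂ) (Z (Fin.castAdd m 1)))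

/-- The defining function of `{Z_{3+j} = F_j(Z_3, τ(Z))}`. -/
noncomputable def rho {m : ℕ} (F : ℂ × ℂ → (Fin m → ℂ)) (Z : Fin (3 + m) → ℂ) : Fin m → ℂ :=
  fun j => Z (Fin.natAdd 3 j) - F (Z (Fin.castAdd m 2), tau Z) j

noncomputable def F1 (p : ℂ × ℂ) : Fin 2 → ℂ := ![p.1 * p.2, p.1 * E p.2]

noncomputable def F2 (p : ℂ × ℂ) : Fin 3 → ℂ := ![p.1 * p.2, p.1 * E p.2, gg p]

end Pool.Agent.Helper395.AA
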