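import Pool.Agent.Helper395.AA.Defs

open Filter Topology Asymptotics

namespace Pool.Agent.Helper395.AA


open Complex in
/-- the derivative of `Z ↦ (Z_3, τ(Z))` -/
noncomputable def dG {m : ℕ} (p : Fin (3 + m) → ℂ) : (Fin (3 + m) → ℂ) →L[ℝ] ℂ × ℂ :=
  let P : Fin (3 + m) → ((Fin (3 + m) → ℂ) →L[ℝ] ℂ) := fun i => ContinuousLinearMap.proj i
  let C : Fin (3 + m) → ((Fin (3 + m) → ℂ) →L[ℝ] ℂ) := fun i => (Complex.conjCLE : ℂ →L[ℝ] ℂ).comp (ContinuousLinearMap.proj i)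
  (P (Fin.castAdd m 2)).prod
    (C (Fin.castAdd m 2) + (p (Fin.castAdd m 0) • C (Fin.castAdd m 0) + (starRingEnd ℂ) (p (Fin.castAdd m 0)) • P (Fin.castAdd m 0))
      + Complex.I • (p (Fin.castAdd m 1) • C (Fin.castAdd m 1) + (starRingEnd ℂ) (p (Fin.castAdd m 1)) • P (Fin.castAdd m 1)))

noncomputable def GG {m : ℕ} (Z : Fin (3 + m) → ℂ) : ℂ × ℂ := (Z (Fin.castAdd m 2), tau Z)

theorem dG_apply {m : ℕ} (p h : Fin (3 + m) → ℂ) : dG p h =
    (h (Fin.castAdd m 2), (starRingEnd ℂ) (h (Fin.castAdd m 2)) +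
      (p (Fin.castAdd m 0) * (starRingEnd ℂ) (h (Fin.castAdd m 0)) + (starRingEnd ℂ) (p (Fin.castAdd m 0)) * h (Fin.castAdd m 0))
      + Complex.I * (p (Fin.castAdd m 1) * (starRingEnd ℂ) (h (Fin.castAdd m 1)) + (starRingEnd ℂ) (p (Fin.castAdd m 1)) * h (Fin.castAdd m 1))) := by
  simp [dG]
  ring

theorem hasFDerivAt_GG {m : ℕ} (p : Fin (3 + m) → ℂ) : HasFDerivAt (𝕜 := ℝ) (GG (m := m)) (dG p) p := by
  have hP : ∀ i : Fin (3 + m), HasFDerivAt (𝕜 := ℝ) (fun Z : Fin (3 + m) → ℂ => Z i) (ContinuousLinearMap.proj i : (Fin (3 + m) → ℂ) →L[ℝ] ℂ) p :=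
    fun i => (ContinuousLinearMap.proj i : (Fin (3 + m) → ℂ) →L[ℝ] ℂ).hasFDerivAt
  have hC : ∀ i : Fin (3 + m), HasFDerivAt (𝕜 := ℝ) (fun Z : Fin (3 + m) → ℂ => (starRingEnd ℂ) (Z i)) ((Complex.conjCLE : ℂ →L[ℝ] ℂ).comp (ContinuousLinearMap.proj i : (Fin (3 + m) → ℂ) →L[ℝ] ℂ)) p :=
    fun i => ((Complex.conjCLE : ℂ →L[ℝ] ℂ).comp (ContinuousLinearMap.proj i : (Fin (3 + m) → ℂ) →L[ℝ] ℂ)).hasFDerivAt
  exact (hP _).prodMk (((hC _).add ((hP _).mul (hC _))).add (((hP _).mul (hC _)).const_mul Complex.I))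

theorem analyticAt_GG {m : ℕ} (p : Fin (3 + m) → ℂ) : AnalyticAt ℝ (GG (m := m)) p := by
  have hP : ∀ i : Fin (3 + m), AnalyticAt ℝ (fun Z : Fin (3 + m) → ℂ => Z i) p :=
    fun i => (ContinuousLinearMap.proj i : (Fin (3 + m) → ℂ) →L[ℝ] ℂ).analyticAt p
  have hC : ∀ i : Fin (3 + m), AnalyticAt ℝ (fun Z : Fin (3 + m) → ℂ => (starRingEnd ℂ) (Z i)) p :=
    fun i => ((Complex.conjCLE : ℂ →L[ℝ] ℂ).comp (ContinuousLinearMap.proj i : (Fin (3 + m) → ℂ) →L[ℝ] ℂ)).analyticAt p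
  exact (hP _).prod (((hC _).add ((hP _).mul (hC _))).add (analyticAt_const.mul ((hP _).mul (hC _))))

theorem GG_zero {m : ℕ} : GG (m := m) 0 = 0 := by
  simp [GG, tau]

theorem rho_eq {m : ℕ} (F : ℂ × ℂ → (Fin m → ℂ)) (Z : Fin (3 + m) → ℂ) :
    rho F Z = fun j => Z (Fin.natAdd 3 j) - F (GG Z) j := rfl

/-- last coordinates -/
noncomputable def lst {m : ℕ} : (Fin (3 + m) → ℂ) →L[ℝ] (Fin m → ℂ) :=
  ContinuousLinearMap.pi fun j => ContinuousLinearMap.proj (Fin.natAdd 3 j)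

theorem lst_apply {m : ℕ} (h : Fin (3 + m) → ℂ) (j : Fin m) : lst h j = h (Fin.natAdd 3 j) := rfl

theorem rho_eq' {m : ℕ} (F : ℂ × ℂ → (Fin m → ℂ)) :
    rho F = fun Z => lst Z - F (GG Z) := by
  funext Z j
  rfl

theorem rho_hasFDerivAt {m : ℕ} (F : ℂ × ℂ → (Fin m → ℂ)) (p : Fin (3 + m) → ℂ)
    (hF : AnalyticAt ℂ F (GG p)) :
    HasFDerivAt (𝕜 := ℝ) (rho F) (lst - ((fderiv ℂ F (GG p)).restrictScalars ℝ).comp (dG p)) p := by
  rw [rho_eq']
  have h1 : HasFDerivAt (𝕜 := ℝ) F ((fderiv ℂ F (GG p)).restrictScalars ℝ) (GG p) :=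
    hF.differentiableAt.hasFDerivAt.restrictScalars ℝ
  exact lst.hasFDerivAt.sub (h1.comp p (hasFDerivAt_GG p))

theorem ev_analytic {m : ℕ} (F : ℂ × ℂ → (Fin m → ℂ)) (hF : AnalyticAt ℂ F 0) :
    ∀ᶠ p in 𝓝 (0 : Fin (3 + m) → ℂ), AnalyticAt ℂ F (GG p) := by
  have hc : Tendsto (GG (m := m)) (𝓝 0) (𝓝 0) := by
    have := (hasFDerivAt_GG (m := m) 0).continuousAt
    have h2 := this.tendsto
    rwa [GG_zero] at h2
  exact hc.eventually hF.eventually_analyticAt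

theorem fderiv_rho_zero {m : ℕ} (F : ℂ × ℂ → (Fin m → ℂ)) (hF : AnalyticAt ℂ F 0)
    (hdF : fderiv ℂ F 0 = 0) : fderiv ℝ (rho F) 0 = lst := by
  have h := (rho_hasFDerivAt F (0 : Fin (3 + m) → ℂ) (by rw [GG_zero]; exact hF)).fderiv
  rw [h, GG_zero, hdF]
  ext h j
  simp

theorem rho_isDefining {m : ℕ} (F : ℂ × ℂ → (Fin m → ℂ)) (hF : AnalyticAt ℂ F 0) (hF0 : F 0 = 0)
    (hdF : fderiv ℂ F 0 = 0) : IsDefining (rho F) := by
  refine ⟨?_, ?_, ?_⟩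
  · rw [rho_eq']
    have h1 : AnalyticAt ℝ F (GG (0 : Fin (3 + m) → ℂ)) := by
      rw [GG_zero]; exact hF.restrictScalars
    exact (lst.analyticAt 0).sub (h1.comp (analyticAt_GG 0))
  · rw [rho_eq']
    simp [GG_zero, hF0]
  · rw [fderiv_rho_zero F hF hdF]
    intro w
    refine ⟨Fin.append (fun _ => 0) w, ?_⟩
    funext j
    rw [lst_apply, Fin.append_right]

/-- the CR field generator `append (a) (b • dF(GG Z) (u))`, general shape -/
noncomputable def VV {m : ℕ} (F : ℂ × ℂ → (Fin m → ℂ)) (Z : Fin (3 + m) → ℂ) : Fin (3 + m) → ℂ :=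
  Fin.append ![1, 0, -(starRingEnd ℂ) (Z (Fin.castAdd m 0))]
    ((starRingEnd ℂ) (Z (Fin.castAdd m 0)) • fderiv ℂ F (GG Z) (-1, 1))

noncomputable def WW {m : ℕ} (F : ℂ × ℂ → (Fin m → ℂ)) (Z : Fin (3 + m) → ℂ) : Fin (3 + m) → ℂ :=
  Fin.append ![0, 1, Complex.I * (starRingEnd ℂ) (Z (Fin.castAdd m 1))]
    ((Complex.I * (starRingEnd ℂ) (Z (Fin.castAdd m 1))) • fderiv ℂ F (GG Z) (1, 1))

theorem tangent_VV {m : ℕ} (F : ℂ × ℂ → (Fin m → ℂ)) (p : Fin (3 + m) → ℂ)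
    (hF : AnalyticAt ℂ F (GG p)) (c : ℂ) : fderiv ℝ (rho F) p (c • VV F p) = 0 := by
  rw [(rho_hasFDerivAt F p hF).fderiv]
  have h1 : dG p (c • VV F p) = (c * (starRingEnd ℂ) (p (Fin.castAdd m 0))) • ((-1 : ℂ), (1 : ℂ)) := by
    rw [dG_apply]
    simp only [Pi.smul_apply, VV, Fin.append_left]
    ext
    · simp
    · simp
      ring
  funext j
  have h2 : (c • VV F p) (Fin.natAdd 3 j) =
      c * ((starRingEnd ℂ) (p (Fin.castAdd m 0)) * fderiv ℂ F (GG p) (-1, 1) j) := by simp [VV]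
  have h3 : (lst - ((fderiv ℂ F (GG p)).restrictScalars ℝ).comp (dG p) : (Fin (3 + m) → ℂ) →L[ℝ] (Fin m → ℂ)) (c • VV F p) j =
      (c • VV F p) (Fin.natAdd 3 j) - fderiv ℂ F (GG p) (dG p (c • VV F p)) j := rfl
  rw [h3, h1, h2, map_smul, Pi.smul_apply, smul_eq_mul, Pi.zero_apply]
  ring

theorem tangent_WW {m : ℕ} (F : ℂ × ℂ → (Fin m → ℂ)) (p : Fin (3 + m) → ℂ)
    (hF : AnalyticAt ℂ F (GG p)) (c : ℂ) : fderiv ℝ (rho F) p (c • WW F p) = 0 := by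
  rw [(rho_hasFDerivAt F p hF).fderiv]
  have h1 : dG p (c • WW F p) = (c * (Complex.I * (starRingEnd ℂ) (p (Fin.castAdd m 1)))) • ((1 : ℂ), (1 : ℂ)) := by
    rw [dG_apply]
    simp only [Pi.smul_apply, WW, Fin.append_left]
    ext
    · simp
    · simp
      ring
  funext j
  have h2 : (c • WW F p) (Fin.natAdd 3 j) =
      c * ((Complex.I * (starRingEnd ℂ) (p (Fin.castAdd m 1))) * fderiv ℂ F (GG p) (1, 1) j) := by simp [WW]
  have h3 : (lst - ((fderiv ℂ F (GG p)).restrictScalars ℝ).comp (dG p) : (Fin (3 + m) → ℂ) →L[ℝ] (Fin m → ℂ)) (c • WW F p) j =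
      (c • WW F p) (Fin.natAdd 3 j) - fderiv ℂ F (GG p) (dG p (c • WW F p)) j := rfl
  rw [h3, h1, h2, map_smul, Pi.smul_apply, smul_eq_mul, Pi.zero_apply]
  ring

/-- first-coordinates-and-last-coordinates assembling map, real linear -/
noncomputable def asm {m : ℕ} : ((Fin 3 → ℂ) × (Fin m → ℂ)) →L[ℝ] (Fin (3 + m) → ℂ) :=
  LinearMap.toContinuousLinearMap
    { toFun := fun x => Fin.append x.1 x.2
      map_add' := by
        intro x y
        funext i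
        refine Fin.addCases (fun i => ?_) (fun i => ?_) i
        · simp
        · simp
      map_smul' := by
        intro c x
        funext i
        refine Fin.addCases (fun i => ?_) (fun i => ?_) i
        · simp
        · simp }

theorem asm_apply {m : ℕ} (a : Fin 3 → ℂ) (b : Fin m → ℂ) : asm (a, b) = Fin.append a b := rfl

theorem analyticAt_dF {m : ℕ} (F : ℂ × ℂ → (Fin m → ℂ)) (hF : AnalyticAt ℂ F 0) (u : ℂ × ℂ) :
    AnalyticAt ℝ (fun Z : Fin (3 + m) → ℂ => fderiv ℂ F (GG Z) u) 0 := by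
  have h1 : AnalyticAt ℂ (fun q : ℂ × ℂ => fderiv ℂ F q u) 0 := by
    have := hF.fderiv
    exact ((ContinuousLinearMap.apply ℂ (Fin m → ℂ) u).analyticAt _).comp this
  have h2 : AnalyticAt ℝ (fun q : ℂ × ℂ => fderiv ℂ F q u) (GG (0 : Fin (3 + m) → ℂ)) := by
    rw [GG_zero]; exact h1.restrictScalars
  exact h2.comp (analyticAt_GG 0)

theorem analyticAt_conj {m : ℕ} (i : Fin (3 + m)) (p : Fin (3 + m) → ℂ) :
    AnalyticAt ℝ (fun Z : Fin (3 + m) → ℂ => (starRingEnd ℂ) (Z i)) p :=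
  ((Complex.conjCLE : ℂ →L[ℝ] ℂ).comp (ContinuousLinearMap.proj i : (Fin (3 + m) → ℂ) →L[ℝ] ℂ)).analyticAt p

theorem hasFDerivAt_conj {m : ℕ} (i : Fin (3 + m)) (p : Fin (3 + m) → ℂ) :
    HasFDerivAt (𝕜 := ℝ) (fun Z : Fin (3 + m) → ℂ => (starRingEnd ℂ) (Z i)) ((Complex.conjCLE : ℂ →L[ℝ] ℂ).comp (ContinuousLinearMap.proj i : (Fin (3 + m) → ℂ) →L[ℝ] ℂ)) p :=
  ((Complex.conjCLE : ℂ →L[ℝ] ℂ).comp (ContinuousLinearMap.proj i : (Fin (3 + m) → ℂ) →L[ℝ] ℂ)).hasFDerivAt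

theorem analyticAt_VV {m : ℕ} (F : ℂ × ℂ → (Fin m → ℂ)) (hF : AnalyticAt ℂ F 0) :
    AnalyticAt ℝ (VV F) 0 := by
  have h1 : AnalyticAt ℝ (fun Z : Fin (3 + m) → ℂ => (![1, 0, -(starRingEnd ℂ) (Z (Fin.castAdd m 0))] : Fin 3 → ℂ)) 0 := by
    rw [analyticAt_pi_iff]
    intro i
    fin_cases i
    · exact analyticAt_const
    · exact analyticAt_const
    · exact (analyticAt_conj _ _).neg
  have h2 : AnalyticAt ℝ (fun Z : Fin (3 + m) → ℂ => (starRingEnd ℂ) (Z (Fin.castAdd m 0)) • fderiv ℂ F (GG Z) (-1, 1)) 0 :=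
    (analyticAt_conj _ _).smul (analyticAt_dF F hF _)
  exact (asm.analyticAt _).comp (h1.prod h2)

theorem analyticAt_WW {m : ℕ} (F : ℂ × ℂ → (Fin m → ℂ)) (hF : AnalyticAt ℂ F 0) :
    AnalyticAt ℝ (WW F) 0 := by
  have h1 : AnalyticAt ℝ (fun Z : Fin (3 + m) → ℂ => (![0, 1, Complex.I * (starRingEnd ℂ) (Z (Fin.castAdd m 1))] : Fin 3 → ℂ)) 0 := by
    rw [analyticAt_pi_iff]
    intro i
    fin_cases i
    · exact analyticAt_const
    · exact analyticAt_const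
    · exact analyticAt_const.mul (analyticAt_conj _ _)
  have h2 : AnalyticAt ℝ (fun Z : Fin (3 + m) → ℂ => (Complex.I * (starRingEnd ℂ) (Z (Fin.castAdd m 1))) • fderiv ℂ F (GG Z) (1, 1)) 0 :=
    (analyticAt_const.mul (analyticAt_conj _ _)).smul (analyticAt_dF F hF _)
  exact (asm.analyticAt _).comp (h1.prod h2)

theorem fderiv_VV {m : ℕ} (F : ℂ × ℂ → (Fin m → ℂ)) (hF : AnalyticAt ℂ F 0)
    (hdF : fderiv ℂ F 0 = 0) (h : Fin (3 + m) → ℂ) :
    fderiv ℝ (VV F) 0 h = Fin.append ![0, 0, -(starRingEnd ℂ) (h (Fin.castAdd m 0))] 0 := by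
  have h1 : HasFDerivAt (𝕜 := ℝ) (fun Z : Fin (3 + m) → ℂ => (![1, 0, -(starRingEnd ℂ) (Z (Fin.castAdd m 0))] : Fin 3 → ℂ))
      (ContinuousLinearMap.pi ![0, 0, -((Complex.conjCLE : ℂ →L[ℝ] ℂ).comp (ContinuousLinearMap.proj (Fin.castAdd m 0) : (Fin (3 + m) → ℂ) →L[ℝ] ℂ))]) 0 := by
    rw [hasFDerivAt_pi]
    intro i
    fin_cases i
    · exact hasFDerivAt_const _ _
    · exact hasFDerivAt_const _ _
    · exact (hasFDerivAt_conj _ _).neg
  have h2 := (hasFDerivAt_conj (Fin.castAdd m 0) (0 : Fin (3 + m) → ℂ)).smul (analyticAt_dF F hF (-1, 1)).differentiableAt.hasFDerivAt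
  have h3 := (asm (m := m)).hasFDerivAt.comp (0 : Fin (3 + m) → ℂ) (h1.prodMk h2)
  have h4 : fderiv ℝ (VV F) 0 = _ := h3.fderiv
  rw [h4]
  simp only [ContinuousLinearMap.comp_apply, ContinuousLinearMap.prod_apply, asm_apply]
  congr 1
  · funext i
    fin_cases i <;> simp
  · funext i
    simp [GG_zero, hdF]

theorem fderiv_WW {m : ℕ} (F : ℂ × ℂ → (Fin m → ℂ)) (hF : AnalyticAt ℂ F 0)
    (hdF : fderiv ℂ F 0 = 0) (h : Fin (3 + m) → ℂ) :
    fderiv ℝ (WW F) 0 h = Fin.append ![0, 0, Complex.I * (starRingEnd ℂ) (h (Fin.castAdd m 1))] 0 := by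
  have h1 : HasFDerivAt (𝕜 := ℝ) (fun Z : Fin (3 + m) → ℂ => (![0, 1, Complex.I * (starRingEnd ℂ) (Z (Fin.castAdd m 1))] : Fin 3 → ℂ))
      (ContinuousLinearMap.pi ![0, 0, Complex.I • ((Complex.conjCLE : ℂ →L[ℝ] ℂ).comp (ContinuousLinearMap.proj (Fin.castAdd m 1) : (Fin (3 + m) → ℂ) →L[ℝ] ℂ))]) 0 := by
    rw [hasFDerivAt_pi]
    intro i
    fin_cases i
    · exact hasFDerivAt_const _ _
    · exact hasFDerivAt_const _ _
    · exact (hasFDerivAt_conj _ _).const_mul Complex.I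
  have h2 := ((hasFDerivAt_conj (Fin.castAdd m 1) (0 : Fin (3 + m) → ℂ)).const_mul Complex.I).smul (analyticAt_dF F hF (1, 1)).differentiableAt.hasFDerivAt
  have h3 := (asm (m := m)).hasFDerivAt.comp (0 : Fin (3 + m) → ℂ) (h1.prodMk h2)
  have h4 : fderiv ℝ (WW F) 0 = _ := h3.fderiv
  rw [h4]
  simp only [ContinuousLinearMap.comp_apply, ContinuousLinearMap.prod_apply, asm_apply]
  congr 1
  · funext i
    fin_cases i <;> simp
  · funext i
    simp [GG_zero, hdF]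

theorem VV_zero {m : ℕ} (F : ℂ × ℂ → (Fin m → ℂ)) : VV F 0 = Fin.append ![1, 0, 0] 0 := by
  simp [VV]

theorem WW_zero {m : ℕ} (F : ℂ × ℂ → (Fin m → ℂ)) : WW F 0 = Fin.append ![0, 1, 0] 0 := by
  simp [WW]

theorem analyticAt_constSmul {m : ℕ} (X : (Fin (3 + m) → ℂ) → (Fin (3 + m) → ℂ)) (hX : AnalyticAt ℝ X 0) :
    AnalyticAt ℝ (fun Z => Complex.I • X Z) 0 := by
  exact (analyticAt_const (𝕜 := ℝ) (v := Complex.I)).smul hX

theorem fderiv_constSmul {m : ℕ} (X : (Fin (3 + m) → ℂ) → (Fin (3 + m) → ℂ)) (hX : AnalyticAt ℝ X 0) (h : Fin (3 + m) → ℂ) :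
    fderiv ℝ (fun Z => Complex.I • X Z) 0 h = Complex.I • fderiv ℝ X 0 h := by
  have := (hX.differentiableAt.hasFDerivAt).const_smul Complex.I
  have h2 : fderiv ℝ (fun Z => Complex.I • X Z) 0 = _ := this.fderiv
  rw [h2]
  rfl

theorem crlie_VV {m : ℕ} (F : ℂ × ℂ → (Fin m → ℂ)) (hF : AnalyticAt ℂ F 0) :
    CRLie (rho F) (VV F) := by
  refine CRLie.field _ (analyticAt_VV F hF) ?_
  filter_upwards [ev_analytic F hF] with p hp _
  refine ⟨?_, tangent_VV F p hp _⟩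
  have := tangent_VV F p hp 1
  rwa [one_smul] at this

theorem crlie_WW {m : ℕ} (F : ℂ × ℂ → (Fin m → ℂ)) (hF : AnalyticAt ℂ F 0) :
    CRLie (rho F) (WW F) := by
  refine CRLie.field _ (analyticAt_WW F hF) ?_
  filter_upwards [ev_analytic F hF] with p hp _
  refine ⟨?_, tangent_WW F p hp _⟩
  have := tangent_WW F p hp 1
  rwa [one_smul] at this

theorem crlie_IVV {m : ℕ} (F : ℂ × ℂ → (Fin m → ℂ)) (hF : AnalyticAt ℂ F 0) :
    CRLie (rho F) (fun Z => Complex.I • VV F Z) := by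
  refine CRLie.field _ (analyticAt_constSmul _ (analyticAt_VV F hF)) ?_
  filter_upwards [ev_analytic F hF] with p hp _
  refine ⟨tangent_VV F p hp _, ?_⟩
  rw [smul_smul]
  exact tangent_VV F p hp _

theorem crlie_IWW {m : ℕ} (F : ℂ × ℂ → (Fin m → ℂ)) (hF : AnalyticAt ℂ F 0) :
    CRLie (rho F) (fun Z => Complex.I • WW F Z) := by
  refine CRLie.field _ (analyticAt_constSmul _ (analyticAt_WW F hF)) ?_
  filter_upwards [ev_analytic F hF] with p hp _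
  refine ⟨tangent_WW F p hp _, ?_⟩
  rw [smul_smul]
  exact tangent_WW F p hp _

theorem bracket_VV {m : ℕ} (F : ℂ × ℂ → (Fin m → ℂ)) (hF : AnalyticAt ℂ F 0)
    (hdF : fderiv ℂ F 0 = 0) :
    VectorField.lieBracket ℝ (VV F) (fun Z => Complex.I • VV F Z) 0 = Fin.append ![0, 0, -2 * Complex.I] 0 := by
  rw [VectorField.lieBracket, fderiv_constSmul _ (analyticAt_VV F hF), fderiv_VV F hF hdF, fderiv_VV F hF hdF,
    VV_zero]
  funext i
  refine Fin.addCases (fun i => ?_) (fun i => ?_) i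
  · simp only [Pi.sub_apply, Pi.smul_apply, Fin.append_left]
    fin_cases i
    · simp
    · simp
    · simp
      ring
  · simp

theorem bracket_WW {m : ℕ} (F : ℂ × ℂ → (Fin m → ℂ)) (hF : AnalyticAt ℂ F 0)
    (hdF : fderiv ℂ F 0 = 0) :
    VectorField.lieBracket ℝ (WW F) (fun Z => Complex.I • WW F Z) 0 = Fin.append ![0, 0, -2] 0 := by
  rw [VectorField.lieBracket, fderiv_constSmul _ (analyticAt_WW F hF), fderiv_WW F hF hdF, fderiv_WW F hF hdF,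
    WW_zero]
  funext i
  refine Fin.addCases (fun i => ?_) (fun i => ?_) i
  · simp only [Pi.sub_apply, Pi.smul_apply, Fin.append_left]
    fin_cases i
    · simp
    · simp
    · simp
      norm_num
  · simp

theorem rho_finiteType {m : ℕ} (F : ℂ × ℂ → (Fin m → ℂ)) (hF : AnalyticAt ℂ F 0) (hF0 : F 0 = 0)
    (hdF : fderiv ℂ F 0 = 0) : FiniteType (rho F) := by
  intro v hv
  rw [fderiv_rho_zero F hF hdF] at hv
  have hS : ∀ X, CRLie (rho F) X → X 0 ∈ Submodule.span ℝ {w : Fin (3 + m) → ℂ | ∃ X, CRLie (rho F) X ∧ X 0 = w} :=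
    fun X hX => Submodule.subset_span ⟨X, hX, rfl⟩
  have e1 := hS _ (crlie_VV F hF)
  have e2 := hS _ (crlie_IVV F hF)
  have e3 := hS _ (crlie_WW F hF)
  have e4 := hS _ (crlie_IWW F hF)
  have e5 := hS _ (CRLie.bracket _ _ (crlie_VV F hF) (crlie_IVV F hF))
  have e6 := hS _ (CRLie.bracket _ _ (crlie_WW F hF) (crlie_IWW F hF))
  rw [bracket_VV F hF hdF] at e5
  rw [bracket_WW F hF hdF] at e6
  simp only [VV_zero, WW_zero] at e1 e2 e3 e4
  have key : v = (v (Fin.castAdd m 0)).re • Fin.append ![1, 0, 0] 0 + (v (Fin.castAdd m 0)).im • (Complex.I • Fin.append ![1, 0, 0] 0)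
      + (v (Fin.castAdd m 1)).re • Fin.append ![0, 1, 0] 0 + (v (Fin.castAdd m 1)).im • (Complex.I • Fin.append ![0, 1, 0] 0)
      + (-(v (Fin.castAdd m 2)).im / 2) • Fin.append ![0, 0, -2 * Complex.I] 0 + (-(v (Fin.castAdd m 2)).re / 2) • Fin.append ![0, 0, -2] 0 := by
    funext i
    refine Fin.addCases (fun i => ?_) (fun i => ?_) i
    · simp only [Pi.add_apply, Pi.smul_apply, Fin.append_left]
      fin_cases i
      · apply Complex.ext <;> simp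
      · apply Complex.ext <;> simp
      · apply Complex.ext <;> simp
    · have := congrFun hv i
      rw [lst_apply] at this
      simp [this]
  rw [key]
  exact add_mem (add_mem (add_mem (add_mem (add_mem (Submodule.smul_mem _ _ e1) (Submodule.smul_mem _ _ e2))
    (Submodule.smul_mem _ _ e3)) (Submodule.smul_mem _ _ e4)) (Submodule.smul_mem _ _ e5)) (Submodule.smul_mem _ _ e6)

end Pool.Agent.Helper395.AA

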