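import Pool.Agent.Helper395.AA.Series
import Pool.Agent.Helper395.AA.FT

open Filter Topology Asymptotics

namespace Pool.Agent.Helper395.AA

/-- The formal sum `∑_k p_k` of polynomials `p_k` without terms of degree `< k`. -/
noncomputable def fsum {σ : Type*} (p : ℕ → MvPolynomial σ ℂ) : MvPowerSeries σ ℂ :=
  fun m => ∑ k ∈ Finset.range (m.degree + 1), MvPolynomial.coeff m (p k)

theorem eval_isBigO {σ : Type*} [Fintype σ] (q : MvPolynomial σ ℂ) (d : ℕ)
    (hq : ∀ m : σ →₀ ℕ, m.degree < d → MvPolynomial.coeff m q = 0) :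
    (fun x : σ → ℂ => MvPolynomial.eval x q) =O[𝓝 0] fun x => ‖x‖ ^ d := by
  classical
  simp_rw [MvPolynomial.eval_eq']
  refine IsBigO.fun_sum fun m hm => ?_
  have hmd : d ≤ m.degree := by
    by_contra hlt
    exact (MvPolynomial.mem_support_iff.1 hm) (hq m (not_le.1 hlt))
  refine IsBigO.of_bound ‖MvPolynomial.coeff m q‖ ?_
  have hball : Metric.ball (0 : σ → ℂ) 1 ∈ 𝓝 (0 : σ → ℂ) := Metric.ball_mem_nhds _ one_pos
  filter_upwards [hball] with x hx
  have hx1 : ‖x‖ ≤ 1 := by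
    have := mem_ball_zero_iff.1 hx
    exact this.le
  rw [norm_mul]
  refine mul_le_mul_of_nonneg_left ?_ (norm_nonneg _)
  rw [norm_prod]
  calc ∏ i, ‖x i ^ m i‖ ≤ ∏ i, ‖x‖ ^ m i := by
        refine Finset.prod_le_prod (fun i _ => norm_nonneg _) fun i _ => ?_
        rw [norm_pow]
        exact pow_le_pow_left₀ (norm_nonneg _) (norm_le_pi_norm x i) _
    _ = ‖x‖ ^ m.degree := by
        rw [Finset.prod_pow_eq_pow_sum, Finsupp.degree_eq_sum]
    _ ≤ ‖x‖ ^ d := pow_le_pow_of_le_one (norm_nonneg _) hx1 hmd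
    _ = ‖‖x‖ ^ d‖ := by rw [norm_pow, norm_norm]

theorem jetEval_fsum {σ : Type*} [Fintype σ] (p : ℕ → MvPolynomial σ ℂ)
    (hp : ∀ k, ∀ m : σ →₀ ℕ, m.degree < k → MvPolynomial.coeff m (p k) = 0) (K : ℕ) :
    (fun x : σ → ℂ => jetEval K (fsum p) x - ∑ k ∈ Finset.range (K + 1), MvPolynomial.eval x (p k))
      =O[𝓝 0] fun x => ‖x‖ ^ (K + 1) := by
  classical
  have key := eval_isBigO (MvPowerSeries.truncTotal (K + 1) (fsum p)
    - ∑ k ∈ Finset.range (K + 1), p k) (K + 1) ?_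
  · refine key.congr_left fun x => ?_
    rw [map_sub, map_sum]
    rfl
  · intro m hm
    rw [MvPolynomial.coeff_sub, MvPolynomial.coeff_sum, MvPowerSeries.coeff_truncTotal _ hm]
    have h1 : (MvPowerSeries.coeff m) (fsum p) =
        ∑ k ∈ Finset.range (m.degree + 1), MvPolynomial.coeff m (p k) := rfl
    rw [h1, sub_eq_zero]
    refine Finset.sum_subset (Finset.range_mono (by omega)) fun k _ hk => ?_
    rw [Finset.mem_range, not_lt] at hk
    exact hp k m (by omega)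

theorem jetEval_X {σ : Type*} [Finite σ] (K : ℕ) (hK : 1 ≤ K) (i : σ) (x : σ → ℂ) :
    jetEval K (MvPowerSeries.X i) x = x i := by
  unfold jetEval
  have h : MvPowerSeries.truncTotal (K + 1) ((MvPolynomial.X i : MvPolynomial σ ℂ) :
      MvPowerSeries σ ℂ) = (MvPolynomial.X i : MvPolynomial σ ℂ) := by
    rw [MvPowerSeries.truncTotal_coe_eq_self_iff _ (by omega), MvPolynomial.totalDegree_X]
    omega
  rw [MvPolynomial.coe_X] at h
  rw [h, MvPolynomial.eval_X]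

open MvPolynomial in
/-- `c_k (x_2^{e_k - 1} x_4 - ∑_{j ≤ k} x_2^{e_k - e_j} x_3^{e_j})` -/
noncomputable def PP (k : ℕ) : MvPolynomial (Fin 5) ℂ :=
  C (cc k) * (X 2 ^ (ex k - 1) * X 4 - ∑ j ∈ Finset.range (k + 1), X 2 ^ (ex k - ex j) * X 3 ^ ex j)

/-- the formal map -/
noncomputable def ff : Fin 6 → MvPowerSeries (Fin 5) ℂ :=
  ![MvPowerSeries.X 0, MvPowerSeries.X 1, MvPowerSeries.X 2, MvPowerSeries.X 3, MvPowerSeries.X 4,
    fsum PP]

theorem ex_mono' {j k : ℕ} (h : j ≤ k) : ex j ≤ ex k := Nat.factorial_le (by omega)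

theorem ex_pos' (k : ℕ) : 1 ≤ ex k := Nat.factorial_pos _

theorem le_ex' (k : ℕ) : k ≤ ex k - 1 := by
  have := Nat.self_le_factorial (k + 1)
  unfold ex
  omega

open MvPolynomial in
theorem X_mem' {σ : Type*} (i : σ) : (X i : MvPolynomial σ ℂ) ∈ idealOfVars σ ℂ :=
  Ideal.subset_span ⟨i, rfl⟩

open MvPolynomial in
noncomputable def tp' : MvPolynomial (Fin 5 ⊕ Fin 5) ℂ :=
  X (Sum.inr 2) + X (Sum.inl 0) * X (Sum.inr 0) + C Complex.I * (X (Sum.inl 1) * X (Sum.inr 1))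

open MvPolynomial in
noncomputable def BB' (k : ℕ) : MvPolynomial (Fin 5 ⊕ Fin 5) ℂ :=
  C (cc k) * X (Sum.inl 2) ^ (ex k - 1)

open MvPolynomial in
noncomputable def AA' (k : ℕ) : MvPolynomial (Fin 5 ⊕ Fin 5) ℂ :=
  -(C (cc k) * ∑ j ∈ Finset.range (k + 1), X (Sum.inl 2) ^ (ex k - ex j) *
     ∑ i ∈ Finset.range (ex j), X (Sum.inl 3) ^ i * (X (Sum.inl 2) * tp') ^ (ex j - 1 - i))

open MvPolynomial in
theorem PP_order' (k : ℕ) (m : Fin 5 →₀ ℕ) (hm : m.degree < k) : coeff m (PP k) = 0 := by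
  have h : PP k ∈ idealOfVars (Fin 5) ℂ ^ (ex k - 1) := by
    unfold PP
    refine Ideal.mul_mem_left _ _ (Ideal.sub_mem _ ?_ (Ideal.sum_mem _ fun j hj => ?_))
    · exact Ideal.mul_mem_right _ _ (Ideal.pow_mem_pow (X_mem' 2) _)
    · have hj' : j ≤ k := by
        have := Finset.mem_range.1 hj
        omega
      have h1 := ex_mono' hj'
      have h2 : (X 2 : MvPolynomial (Fin 5) ℂ) ^ (ex k - ex j) * X 3 ^ ex j ∈
          idealOfVars (Fin 5) ℂ ^ ((ex k - ex j) + ex j) := by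
        rw [pow_add]
        exact Ideal.mul_mem_mul (Ideal.pow_mem_pow (X_mem' 2) _) (Ideal.pow_mem_pow (X_mem' 3) _)
      exact Ideal.pow_le_pow_right (by omega) h2
  exact (mem_pow_idealOfVars_iff' k _).1 (Ideal.pow_le_pow_right (le_ex' k) h) m hm

open MvPolynomial in
theorem BB_order' (k : ℕ) (m : Fin 5 ⊕ Fin 5 →₀ ℕ) (hm : m.degree < k) :
    coeff m (BB' k) = 0 := by
  have h : BB' k ∈ idealOfVars (Fin 5 ⊕ Fin 5) ℂ ^ (ex k - 1) := by
    unfold BB'
    exact Ideal.mul_mem_left _ _ (Ideal.pow_mem_pow (X_mem' _) _)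
  exact (mem_pow_idealOfVars_iff' k _).1 (Ideal.pow_le_pow_right (le_ex' k) h) m hm

open MvPolynomial in
theorem AA_order' (k : ℕ) (m : Fin 5 ⊕ Fin 5 →₀ ℕ) (hm : m.degree < k) :
    coeff m (AA' k) = 0 := by
  have h : AA' k ∈ idealOfVars (Fin 5 ⊕ Fin 5) ℂ ^ (ex k - 1) := by
    unfold AA'
    refine Ideal.neg_mem_iff _ |>.2 (Ideal.mul_mem_left _ _ (Ideal.sum_mem _ fun j hj => ?_))
    rw [Finset.mul_sum]
    refine Ideal.sum_mem _ fun i hi => ?_
    have hj' : j ≤ k := by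
      have := Finset.mem_range.1 hj
      omega
    have h1 := ex_mono' hj'
    have h0 := ex_pos' j
    have hi' := Finset.mem_range.1 hi
    have h2 : (X (Sum.inl 2) : MvPolynomial (Fin 5 ⊕ Fin 5) ℂ) ^ (ex k - ex j) *
        (X (Sum.inl 3) ^ i * (X (Sum.inl 2) * tp') ^ (ex j - 1 - i)) ∈
        idealOfVars (Fin 5 ⊕ Fin 5) ℂ ^ ((ex k - ex j) + (i + (ex j - 1 - i))) := by
      rw [pow_add, pow_add]
      exact Ideal.mul_mem_mul (Ideal.pow_mem_pow (X_mem' _) _)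
        (Ideal.mul_mem_mul (Ideal.pow_mem_pow (X_mem' _) _)
          (Ideal.pow_mem_pow (Ideal.mul_mem_right _ _ (X_mem' _)) _))
    exact Ideal.pow_le_pow_right (by omega) h2
  exact (mem_pow_idealOfVars_iff' k _).1 (Ideal.pow_le_pow_right (le_ex' k) h) m hm

/-- `τ` on `Fin 5 → ℂ`. -/
noncomputable def tt (z : Fin 5 → ℂ) : ℂ :=
  (starRingEnd ℂ) (z 2) + z 0 * (starRingEnd ℂ) (z 0) + Complex.I * (z 1 * (starRingEnd ℂ) (z 1))

/-- `(z, z̄)` -/
noncomputable def ww (z : Fin 5 → ℂ) : Fin 5 ⊕ Fin 5 → ℂ :=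
  Sum.elim z fun l => (starRingEnd ℂ) (z l)

open MvPolynomial in
theorem ident' (z : Fin 5 → ℂ) (k : ℕ) :
    eval z (PP k) = cc k * (z 2) ^ ex k * tl k (tt z) + eval (ww z) (AA' k) * (z 3 - z 2 * tt z)
      + eval (ww z) (BB' k) * (z 4 - z 2 * E (tt z)) := by
  have ht : eval (ww z) tp' = tt z := by
    simp [tp', tt, ww]
  have h3 : (∑ j ∈ Finset.range (k + 1), (z 2) ^ (ex k - ex j) *
      ∑ i ∈ Finset.range (ex j), (z 3) ^ i * (z 2 * tt z) ^ (ex j - 1 - i)) * (z 3 - z 2 * tt z)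
      = ∑ j ∈ Finset.range (k + 1), (z 2) ^ (ex k - ex j) * (z 3) ^ ex j
        - (z 2) ^ ex k * ∑ j ∈ Finset.range (k + 1), (tt z) ^ ex j := by
    rw [Finset.sum_mul, Finset.mul_sum, ← Finset.sum_sub_distrib]
    refine Finset.sum_congr rfl fun j hj => ?_
    have hj' : j ≤ k := by
      have := Finset.mem_range.1 hj
      omega
    have h1 := ex_mono' hj'
    have h4 : (z 2) ^ ex k = (z 2) ^ (ex k - ex j) * (z 2) ^ ex j := by
      rw [← pow_add]
      congr 1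
      omega
    rw [mul_assoc, geom_sum₂_mul, mul_pow, h4]
    ring
  have h5 : (z 2) ^ ex k = (z 2) ^ (ex k - 1) * z 2 := by
    rw [← pow_succ]
    congr 1
    have := ex_pos' k
    omega
  have e1 : eval z (PP k) = cc k * ((z 2) ^ (ex k - 1) * z 4 -
      ∑ j ∈ Finset.range (k + 1), (z 2) ^ (ex k - ex j) * (z 3) ^ ex j) := by
    simp [PP]
  have e2 : eval (ww z) (AA' k) = -(cc k * ∑ j ∈ Finset.range (k + 1), (z 2) ^ (ex k - ex j) *
      ∑ i ∈ Finset.range (ex j), (z 3) ^ i * (z 2 * tt z) ^ (ex j - 1 - i)) := by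
    simp only [AA', map_neg, map_mul, map_sum, map_pow, ht, eval_X, eval_C]
    rfl
  have e3 : eval (ww z) (BB' k) = cc k * (z 2) ^ (ex k - 1) := by
    simp only [BB', map_mul, map_pow, eval_X, eval_C]
    rfl
  rw [e1, e2, e3]
  unfold tl
  linear_combination (cc k) * h3 + (-cc k * E (tt z)) * h5

theorem tt_cont : Continuous tt := by
  unfold tt
  have hc : Continuous (starRingEnd ℂ) := Complex.continuous_conj
  fun_prop

theorem tt_zero : tt 0 = 0 := by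
  simp [tt]

theorem ww_norm (z : Fin 5 → ℂ) : ‖ww z‖ ≤ ‖z‖ := by
  rw [pi_norm_le_iff_of_nonneg (norm_nonneg _)]
  intro i
  rcases i with i | i
  · exact norm_le_pi_norm z i
  · change ‖(starRingEnd ℂ) (z i)‖ ≤ ‖z‖
    rw [RCLike.norm_conj]
    exact norm_le_pi_norm z i

theorem ww_tendsto : Tendsto ww (𝓝 0) (𝓝 0) := by
  rw [tendsto_zero_iff_norm_tendsto_zero]
  refine squeeze_zero (fun _ => norm_nonneg _) ww_norm ?_
  have : Tendsto (fun z : Fin 5 → ℂ => ‖z‖) (𝓝 0) (𝓝 ‖(0 : Fin 5 → ℂ)‖) :=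
    continuous_norm.tendsto 0
  simpa using this

theorem comp_big {ι : Type*} [Fintype ι] (G : (ι → ℂ) → ℂ) (K : ℕ)
    (hG : G =O[𝓝 0] fun x => ‖x‖ ^ (K + 1)) (W : (Fin 5 → ℂ) → (ι → ℂ))
    (hW : Tendsto W (𝓝 0) (𝓝 0)) (hn : ∀ z, ‖W z‖ ≤ ‖z‖) :
    (fun z => G (W z)) =O[𝓝 0] fun z : Fin 5 → ℂ => ‖z‖ ^ (K + 1) := by
  have h1 := hG.comp_tendsto hW
  refine h1.trans (IsBigO.of_norm_le fun z => ?_)
  simp only [Function.comp_apply, norm_pow, norm_norm]
  exact pow_le_pow_left₀ (norm_nonneg _) (hn z) _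

theorem comp2 (K : ℕ) :
    (fun z : Fin 5 → ℂ => jetEval K (fsum PP) z - gg (z 2, tt z)
      - (jetEval K (fsum AA') (ww z) * (z 3 - z 2 * tt z)
        + jetEval K (fsum BB') (ww z) * (z 4 - z 2 * E (tt z))))
      =O[𝓝 0] fun z => ‖z‖ ^ (K + 1) := by
  have h1 := jetEval_fsum PP PP_order' K
  have h2 := comp_big _ K (jetEval_fsum AA' AA_order' K) ww ww_tendsto ww_norm
  have h3 := comp_big _ K (jetEval_fsum BB' BB_order' K) ww ww_tendsto ww_norm
  have hp0 : Tendsto (fun z : Fin 5 → ℂ => ((z 2, tt z) : ℂ × ℂ)) (𝓝 0) (𝓝 0) := by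
    have hc : Continuous (fun z : Fin 5 → ℂ => ((z 2, tt z) : ℂ × ℂ)) :=
      (continuous_apply 2).prodMk tt_cont
    have := hc.tendsto 0
    rw [tt_zero] at this
    exact this
  have hz : ∀ i : Fin 5, (fun z : Fin 5 → ℂ => z i) =O[𝓝 0] fun z => ‖z‖ := fun i =>
    IsBigO.of_norm_le fun z => by simpa using norm_le_pi_norm z i
  have hz' : ∀ i : Fin 5, (fun z : Fin 5 → ℂ => (starRingEnd ℂ) (z i)) =O[𝓝 0] fun z => ‖z‖ :=
    fun i => IsBigO.of_norm_le fun z => by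
      rw [RCLike.norm_conj]
      exact norm_le_pi_norm z i
  have hb : ∀ i : Fin 5, (fun z : Fin 5 → ℂ => z i) =O[𝓝 0] fun _ => (1:ℝ) := fun i =>
    ((continuous_apply i).tendsto (0 : Fin 5 → ℂ)).isBigO_one ℝ
  have htt : tt =O[𝓝 0] fun z => ‖z‖ := by
    have a0 : (fun z : Fin 5 → ℂ => z 0 * (starRingEnd ℂ) (z 0)) =O[𝓝 0] fun z => ‖z‖ := by
      simpa using (hb 0).mul (hz' 0)
    have a1 : (fun z : Fin 5 → ℂ => z 1 * (starRingEnd ℂ) (z 1)) =O[𝓝 0] fun z => ‖z‖ := by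
      simpa using (hb 1).mul (hz' 1)
    exact ((hz' 2).add a0).add (a1.const_mul_left Complex.I)
  have hpn : (fun z : Fin 5 → ℂ => ((z 2, tt z) : ℂ × ℂ)) =O[𝓝 0] fun z => ‖z‖ :=
    (hz 2).prod_left htt
  have h4 : (fun z : Fin 5 → ℂ => gg (z 2, tt z) -
      ∑ k ∈ Finset.range (K + 1), cc k * (z 2) ^ ex k * tl k (tt z)) =O[𝓝 0]
        fun z => ‖z‖ ^ (K + 1) := by
    have h5 := (gg_tail K).comp_tendsto hp0
    refine h5.trans ?_
    exact (hpn.norm_left).pow (K + 1)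
  have r0 : (fun z : Fin 5 → ℂ => z 3 - z 2 * tt z) =O[𝓝 0] fun _ => (1:ℝ) := by
    have hc : Continuous (fun z : Fin 5 → ℂ => z 3 - z 2 * tt z) :=
      (continuous_apply 3).sub ((continuous_apply 2).mul tt_cont)
    exact (hc.tendsto 0).isBigO_one ℝ
  have r1 : (fun z : Fin 5 → ℂ => z 4 - z 2 * E (tt z)) =O[𝓝 0] fun _ => (1:ℝ) := by
    have hE : ContinuousAt E (tt 0) := by
      rw [tt_zero]
      exact (E_analytic (by simp)).continuousAt
    have hc : ContinuousAt (fun z : Fin 5 → ℂ => z 4 - z 2 * E (tt z)) 0 :=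
      (continuous_apply 4).continuousAt.sub ((continuous_apply 2).continuousAt.mul
        (ContinuousAt.comp (f := tt) hE tt_cont.continuousAt))
    exact hc.tendsto.isBigO_one ℝ
  have h2' := h2.mul r0
  have h3' := h3.mul r1
  simp only [mul_one] at h2' h3'
  have hsum := ((h1.sub h4).sub h2').sub h3'
  refine hsum.congr_left fun z => ?_
  have hid : ∑ k ∈ Finset.range (K + 1), MvPolynomial.eval z (PP k) =
      ∑ k ∈ Finset.range (K + 1), cc k * (z 2) ^ ex k * tl k (tt z)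
      + (∑ k ∈ Finset.range (K + 1), MvPolynomial.eval (ww z) (AA' k)) * (z 3 - z 2 * tt z)
      + (∑ k ∈ Finset.range (K + 1), MvPolynomial.eval (ww z) (BB' k)) * (z 4 - z 2 * E (tt z)) := by
    rw [Finset.sum_mul, Finset.sum_mul, ← Finset.sum_add_distrib, ← Finset.sum_add_distrib]
    exact Finset.sum_congr rfl fun k _ => ident' z k
  rw [hid]
  ring

theorem maps_formally : MapsFormally (rho (m := 2) F1) (rho (m := 3) F2) ff := by
  refine ⟨![![1, 0], ![0, 1], ![fsum AA', fsum BB']], fun K hK => ?_⟩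
  have hjet : ∀ z : Fin 5 → ℂ, jet K ff z = ![z 0, z 1, z 2, z 3, z 4, jetEval K (fsum PP) z] := by
    intro z
    funext i
    fin_cases i
    · exact jetEval_X K hK 0 z
    · exact jetEval_X K hK 1 z
    · exact jetEval_X K hK 2 z
    · exact jetEval_X K hK 3 z
    · exact jetEval_X K hK 4 z
    · rfl
  have h1 : ∀ w : Fin 5 ⊕ Fin 5 → ℂ, jetEval K (1 : MvPowerSeries (Fin 5 ⊕ Fin 5) ℂ) w = 1 := by
    intro w
    unfold jetEval
    rw [MvPowerSeries.truncTotal_one (by omega), map_one]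
  have h0 : ∀ w : Fin 5 ⊕ Fin 5 → ℂ, jetEval K (0 : MvPowerSeries (Fin 5 ⊕ Fin 5) ℂ) w = 0 := by
    intro w
    unfold jetEval
    rw [map_zero, map_zero]
  have htau : ∀ z : Fin 5 → ℂ, tau (m := 2) z = tt z := fun z => rfl
  have htau' : ∀ z : Fin 5 → ℂ, tau (m := 3) (jet K ff z) = tt z := by
    intro z
    rw [hjet]
    rfl
  refine isBigO_pi.2 fun j => ?_
  fin_cases j
  · refine (isBigO_zero _ _).congr_left fun z => ?_
    have e1 : rho (m := 3) F2 (jet K ff z) 0 = z 3 - z 2 * tt z := by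
      unfold rho
      rw [htau', hjet]
      rfl
    have e2 : rho (m := 2) F1 z 0 = z 3 - z 2 * tt z := rfl
    change 0 = rho (m := 3) F2 (jet K ff z) 0 - ∑ i : Fin 2, jetEval K ((![1, 0] : Fin 2 → MvPowerSeries (Fin 5 ⊕ Fin 5) ℂ) i) (ww z) * rho (m := 2) F1 z i
    rw [Fin.sum_univ_two, e1, e2]
    simp only [Matrix.cons_val_zero, Matrix.cons_val_one, h1, h0]
    ring
  · refine (isBigO_zero _ _).congr_left fun z => ?_
    have e1 : rho (m := 3) F2 (jet K ff z) 1 = z 4 - z 2 * E (tt z) := by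
      unfold rho
      rw [htau', hjet]
      rfl
    have e2 : rho (m := 2) F1 z 1 = z 4 - z 2 * E (tt z) := rfl
    change 0 = rho (m := 3) F2 (jet K ff z) 1 - ∑ i : Fin 2, jetEval K ((![0, 1] : Fin 2 → MvPowerSeries (Fin 5 ⊕ Fin 5) ℂ) i) (ww z) * rho (m := 2) F1 z i
    rw [Fin.sum_univ_two, e1, e2]
    simp only [Matrix.cons_val_zero, Matrix.cons_val_one, h1, h0]
    ring
  · refine (comp2 K).congr_left fun z => ?_
    have e1 : rho (m := 3) F2 (jet K ff z) 2 = jetEval K (fsum PP) z - gg (z 2, tt z) := by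
      unfold rho
      rw [htau', hjet]
      rfl
    have e2 : rho (m := 2) F1 z 0 = z 3 - z 2 * tt z := rfl
    have e3 : rho (m := 2) F1 z 1 = z 4 - z 2 * E (tt z) := rfl
    change _ = rho (m := 3) F2 (jet K ff z) 2 - ∑ i : Fin 2, jetEval K ((![fsum AA', fsum BB'] : Fin 2 → MvPowerSeries (Fin 5 ⊕ Fin 5) ℂ) i) (ww z) * rho (m := 2) F1 z i
    rw [Fin.sum_univ_two, e1, e2, e3]
    rfl

end Pool.Agent.Helper395.AA
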