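import Pool.Agent.Helper395.AA.Defs

open Filter Topology Asymptotics

namespace Pool.Agent.Helper395.AA

theorem exB_ge (k i : ℕ) : ex k + i ≤ ex (k + i) := by
  induction i with
  | zero => simp
  | succ i ih =>
    have h1 : ex (k + i) < ex (k + (i + 1)) := by
      unfold ex
      exact (Nat.factorial_lt (by omega)).2 (by omega)
    omega

theorem exB_ge0 (k : ℕ) : k ≤ ex k := by
  have := exB_ge 0 k
  simp only [zero_add] at this
  omega

theorem exB_pos (k : ℕ) : 0 < ex k := Nat.factorial_pos _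

theorem summable_B {τ : ℂ} (h : ‖τ‖ < 1) : Summable fun k : ℕ => τ ^ ex k := by
  refine Summable.of_norm_bounded (summable_geometric_of_lt_one (norm_nonneg τ) h) fun k => ?_
  rw [norm_pow]
  exact pow_le_pow_of_le_one (norm_nonneg _) h.le (exB_ge0 k)

theorem E_analytic {τ : ℂ} (h : ‖τ‖ < 1) : AnalyticAt ℂ E τ := by
  obtain ⟨r, hr1, hr2⟩ := exists_between h
  have hr0 : 0 ≤ r := (norm_nonneg _).trans hr1.le
  have hd : DifferentiableOn ℂ (fun τ : ℂ => ∑' k : ℕ, τ ^ ex k) (Metric.ball 0 r) := by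
    refine Complex.differentiableOn_tsum_of_summable_norm
      (u := fun k : ℕ => r ^ k) (summable_geometric_of_lt_one hr0 hr2) (fun k => ?_)
      Metric.isOpen_ball (fun k w hw => ?_)
    · exact (differentiable_id.pow _).differentiableOn
    · rw [norm_pow]
      have hw' : ‖w‖ < r := by simpa using hw
      calc ‖w‖ ^ ex k ≤ r ^ ex k := by gcongr
        _ ≤ r ^ k := pow_le_pow_of_le_one hr0 hr2.le (exB_ge0 k)
  exact hd.analyticAt (Metric.isOpen_ball.mem_nhds (by simpa using hr1))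

theorem E_zero : E 0 = 0 := by
  unfold E
  have : ∀ k : ℕ, (0 : ℂ) ^ ex k = 0 := fun k => zero_pow (exB_pos k).ne'
  simp [this]

theorem E_conj (τ : ℂ) : E ((starRingEnd ℂ) τ) = (starRingEnd ℂ) (E τ) := by
  unfold E
  rw [Complex.conj_tsum]
  simp

theorem tl_analytic {k : ℕ} {τ : ℂ} (h : ‖τ‖ < 1) : AnalyticAt ℂ (tl k) τ := by
  unfold tl
  refine (E_analytic h).sub ?_
  refine Finset.analyticAt_fun_sum _ fun j _ => ?_
  exact analyticAt_id.pow _

theorem tl_eq {k : ℕ} {τ : ℂ} (h : ‖τ‖ < 1) : tl k τ = ∑' i : ℕ, τ ^ ex (i + (k + 1)) := by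
  unfold tl E
  rw [← (summable_B h).sum_add_tsum_nat_add (k + 1)]
  ring

theorem tl_bound {k : ℕ} {τ : ℂ} (h : ‖τ‖ ≤ 1 / 2) : ‖tl k τ‖ ≤ 2 * ‖τ‖ ^ ex (k + 1) := by
  have h1 : ‖τ‖ < 1 := by linarith
  rw [tl_eq h1]
  have hs : HasSum (fun i : ℕ => ‖τ‖ ^ ex (k + 1) * ‖τ‖ ^ i) (‖τ‖ ^ ex (k + 1) * (1 - ‖τ‖)⁻¹) :=
    (hasSum_geometric_of_lt_one (norm_nonneg _) h1).mul_left _
  have h2 : ‖∑' i : ℕ, τ ^ ex (i + (k + 1))‖ ≤ ‖τ‖ ^ ex (k + 1) * (1 - ‖τ‖)⁻¹ := by
    refine tsum_of_norm_bounded hs fun i => ?_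
    rw [norm_pow, ← pow_add]
    have := exB_ge (k + 1) i
    rw [add_comm i (k + 1)]
    exact pow_le_pow_of_le_one (norm_nonneg _) h1.le this
  refine h2.trans ?_
  have h3 : (1 - ‖τ‖)⁻¹ ≤ 2 := by
    rw [inv_le_comm₀ (by linarith) (by norm_num)]
    linarith
  rw [mul_comm]
  gcongr

theorem tl_half (k : ℕ) : (1 / 2 : ℝ) ^ ex (k + 1) ≤ ‖tl k (1 / 2)‖ := by
  have hh : ‖(1 / 2 : ℂ)‖ < 1 := by norm_num
  have h1 : tl k (1 / 2) = ((∑' i : ℕ, (1 / 2 : ℝ) ^ ex (i + (k + 1)) : ℝ) : ℂ) := by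
    rw [tl_eq hh]
    push_cast
    rfl
  have hsum : Summable fun i : ℕ => (1 / 2 : ℝ) ^ ex (i + (k + 1)) := by
    refine Summable.of_nonneg_of_le (fun i => by positivity) (fun i => ?_)
      (summable_geometric_of_lt_one (r := (1 / 2 : ℝ)) (by norm_num) (by norm_num))
    refine pow_le_pow_of_le_one (by norm_num) (by norm_num) ?_
    have := exB_ge0 (i + (k + 1))
    omega
  rw [h1, Complex.norm_real]
  have h2 := hsum.le_tsum 0 (fun j _ => by positivity)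
  rw [zero_add] at h2
  exact h2.trans (le_abs_self _)

end Pool.Agent.Helper395.AA
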