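import Mathlib

/-! Holomorphic M-test on complex normed spaces (copied from the team's file
`Results/MP_149452_an/AnalyticApprox.lean`). -/

open Metric Filter Topology Set
open scoped ENNReal NNReal Nat

namespace Pool.Agent.Helper395.AA

section Holo

variable {E : Type} [NormedAddCommGroup E] [NormedSpace ℂ E]

/-- Cauchy estimate for the Frechet derivative -/
theorem fderiv_bound {G : Type} [NormedAddCommGroup G] [NormedSpace ℂ G]
    {f : E → G} {x : E} {h M : ℝ} (hh : 0 < h)
    (hf : ∀ z ∈ closedBall x h, DifferentiableAt ℂ f z)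
    (hb : ∀ z ∈ closedBall x h, ‖f z‖ ≤ M) : ‖fderiv ℂ f x‖ ≤ M / h := by
  have hM : 0 ≤ M := (norm_nonneg _).trans (hb x (mem_closedBall_self hh.le))
  refine ContinuousLinearMap.opNorm_le_bound _ (by positivity) fun v => ?_
  rcases eq_or_ne v 0 with rfl | hv
  · simp
  have hv0 : 0 < ‖v‖ := norm_pos_iff.2 hv
  set ph : ℂ → G := fun ζ => f (x + ζ • v) with hph
  have hmem : ∀ ζ ∈ closedBall (0 : ℂ) (h / ‖v‖), x + ζ • v ∈ closedBall x h := by
    intro ζ hζ
    rw [mem_closedBall, dist_eq_norm] at *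
    rw [add_sub_cancel_left, norm_smul]
    rw [sub_zero] at hζ
    calc ‖ζ‖ * ‖v‖ ≤ h / ‖v‖ * ‖v‖ := by gcongr
      _ = h := by field_simp
  have hlin : ∀ ζ : ℂ, HasFDerivAt (fun ζ : ℂ => x + ζ • v)
      ((1 : ℂ →L[ℂ] ℂ).smulRight v) ζ := by
    intro ζ
    have := ((hasFDerivAt_id (𝕜 := ℂ) ζ).smul_const v).const_add x
    exact this
  have hphd : ∀ ζ ∈ closedBall (0 : ℂ) (h / ‖v‖), DifferentiableAt ℂ ph ζ := by
    intro ζ hζ
    exact (hf _ (hmem ζ hζ)).comp ζ (hlin ζ).differentiableAt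
  have hr : 0 < h / ‖v‖ := by positivity
  have hdc : DiffContOnCl ℂ ph (ball 0 (h / ‖v‖)) := by
    refine DifferentiableOn.diffContOnCl ?_
    intro ζ hζ
    rw [closure_ball _ hr.ne'] at hζ
    exact (hphd ζ hζ).differentiableWithinAt
  have h1 := Complex.norm_deriv_le_of_forall_mem_sphere_norm_le hr hdc
    (C := M) fun ζ hζ => hb _ (hmem ζ (sphere_subset_closedBall hζ))
  have h2 : deriv ph 0 = fderiv ℂ f x v := by
    have hx : x + (0 : ℂ) • v = x := by simp
    have hfx : HasFDerivAt f (fderiv ℂ f x) (x + (0 : ℂ) • v) := by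
      rw [hx]; exact (hf x (mem_closedBall_self hh.le)).hasFDerivAt
    have h3 := hfx.comp (0 : ℂ) (hlin 0)
    have h4 := h3.hasDerivAt.deriv
    have h5 : ph = f ∘ fun ζ : ℂ => x + ζ • v := rfl
    rw [h5, h4]
    simp
  rw [h2] at h1
  calc ‖fderiv ℂ f x v‖ ≤ M / (h / ‖v‖) := h1
    _ = M / h * ‖v‖ := by field_simp

/-- iterated Cauchy estimates -/
theorem iter_bound (k : ℕ) : ∀ {G : Type} [NormedAddCommGroup G] [NormedSpace ℂ G]
    [CompleteSpace G] {f : E → G} {y : E} {R h M : ℝ}, 0 < h → k * h < R →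
    (∀ z ∈ ball y R, AnalyticAt ℂ f z) → (∀ z ∈ ball y R, ‖f z‖ ≤ M) →
    ‖iteratedFDeriv ℂ k f y‖ ≤ M / h ^ k := by
  induction k with
  | zero =>
    intro G _ _ _ f y R h M hh hR hf hb
    simp only [Nat.cast_zero, zero_mul] at hR
    rw [norm_iteratedFDeriv_zero, pow_zero, div_one]
    exact hb y (mem_ball_self hR)
  | succ k ih =>
    intro G _ _ _ f y R h M hh hR hf hb
    rw [← norm_iteratedFDeriv_fderiv]
    have hR' : k * h < R - h := by push_cast at hR; linarith
    have hsub : ∀ z ∈ ball y (R - h), closedBall z h ⊆ ball y R := by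
      intro z hz w hw
      rw [mem_ball] at *
      rw [mem_closedBall] at hw
      calc dist w y ≤ dist w z + dist z y := dist_triangle _ _ _
        _ < h + (R - h) := by linarith
        _ = R := by ring
    have h1 := ih (f := fderiv ℂ f) (y := y) (R := R - h) (h := h) (M := M / h) hh hR'
      (fun z hz => (hf z (hsub z hz (mem_closedBall_self hh.le))).fderiv)
      (fun z hz => fderiv_bound hh (fun w hw => (hf w (hsub z hz hw)).differentiableAt)
        fun w hw => hb w (hsub z hz hw))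
    refine h1.trans (le_of_eq ?_)
    rw [pow_succ, div_div]
    congr 1
    ring

/-- Taylor series as a formal multilinear series -/
noncomputable def tay (f : E → ℂ) (y : E) : FormalMultilinearSeries ℂ E ℂ :=
  fun k => ((k ! : ℂ))⁻¹ • iteratedFDeriv ℂ k f y

theorem tay_bound {f : E → ℂ} {y : E} {R M : ℝ} (hR : 0 < R)
    (hf : ∀ z ∈ ball y R, AnalyticAt ℂ f z) (hb : ∀ z ∈ ball y R, ‖f z‖ ≤ M) (k : ℕ) :
    ‖tay f y k‖ ≤ 3 * M * (3 / R) ^ k := by
  have hM : 0 ≤ M := (norm_nonneg _).trans (hb y (mem_ball_self hR))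
  have hk : (0 : ℝ) < k + 1 := by positivity
  have h1 := iter_bound k (f := f) (y := y) (R := R) (h := R / (k + 1)) (M := M)
    (by positivity) (by
      rw [mul_div_assoc', div_lt_iff₀ hk]
      nlinarith) hf hb
  unfold tay
  rw [norm_smul, norm_inv, Complex.norm_natCast]
  have h2 : ((k : ℝ) + 1) ^ k / k ! ≤ Real.exp (k + 1) :=
    Real.pow_div_factorial_le_exp _ hk.le k
  have h3 : Real.exp (k + 1) ≤ 3 ^ (k + 1) := by
    have : Real.exp ((k : ℝ) + 1) = Real.exp 1 ^ (k + 1) := by
      rw [← Real.exp_nat_mul]; push_cast; ring_nf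
    rw [this]
    have := Real.exp_one_lt_d9
    exact pow_le_pow_left₀ (Real.exp_pos _).le (by linarith) _
  have hkf : (0 : ℝ) < k ! := by exact_mod_cast Nat.factorial_pos k
  calc (k ! : ℝ)⁻¹ * ‖iteratedFDeriv ℂ k f y‖ ≤ (k ! : ℝ)⁻¹ * (M / (R / (k + 1)) ^ k) := by
        gcongr
    _ = M * (((k : ℝ) + 1) ^ k / k !) / R ^ k := by
        rw [div_pow]; field_simp
    _ ≤ M * 3 ^ (k + 1) / R ^ k := by
        have := h2.trans h3
        gcongr
    _ = 3 * M * (3 / R) ^ k := by rw [div_pow, pow_succ]; ring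

theorem tay_hasFPowerSeriesOnBall {f : E → ℂ} {y : E} {R M : ℝ} (hR : 0 < R)
    (hf : ∀ z ∈ ball y R, AnalyticAt ℂ f z) (hb : ∀ z ∈ ball y R, ‖f z‖ ≤ M) :
    ∀ v : E, ‖v‖ < R / 3 → HasSum (fun k => tay f y k (fun _ => v)) (f (y + v)) := by
  have hM : 0 ≤ M := (norm_nonneg _).trans (hb y (mem_ball_self hR))
  set p := tay f y with hp
  have hrad : (ENNReal.ofReal (R / 3)) ≤ p.radius := by
    have := p.le_radius_of_bound (r := (R / 3).toNNReal) (3 * M) (fun n => by
      rw [Real.coe_toNNReal _ (by positivity)]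
      calc ‖p n‖ * (R / 3) ^ n ≤ 3 * M * (3 / R) ^ n * (R / 3) ^ n := by
            gcongr; exact tay_bound hR hf hb n
        _ = 3 * M := by
            rw [mul_assoc, ← mul_pow]
            have : 3 / R * (R / 3) = 1 := by field_simp
            rw [this, one_pow, mul_one])
    exact this
  have hpos : 0 < p.radius := lt_of_lt_of_le (by simpa using hR) hrad
  have hS := (p.hasFPowerSeriesOnBall hpos).comp_sub y
  rw [zero_add] at hS
  have hSan : AnalyticOnNhd ℂ (fun z => p.sum (z - y)) (ball y (R / 3)) := by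
    have h1 := hS.analyticOnNhd
    refine h1.mono fun z hz => ?_
    rw [mem_eball, edist_dist]
    rw [mem_ball] at hz
    exact lt_of_lt_of_le ((ENNReal.ofReal_lt_ofReal_iff (by positivity)).2 hz) hrad
  have hfan : AnalyticOnNhd ℂ f (ball y (R / 3)) := fun z hz =>
    hf z (ball_subset_ball (by linarith) hz)
  have hev : f =ᶠ[𝓝 y] fun z => p.sum (z - y) := by
    obtain ⟨q, r', hq⟩ := hf y (mem_ball_self hR)
    have h1 : ∀ᶠ z in 𝓝 y, z - y ∈ eball (0 : E) r' := by
      have : Tendsto (fun z : E => z - y) (𝓝 y) (𝓝 0) := by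
        have h0 : Continuous fun z : E => z - y := by fun_prop
        have := h0.tendsto y
        simpa using this
      exact this.eventually (eball_mem_nhds _ hq.r_pos)
    filter_upwards [h1] with z hz
    have h2 := hq.hasSum_iteratedFDeriv hz
    rw [add_sub_cancel] at h2
    have h3 : HasSum (fun k => p k (fun _ => z - y)) (f z) := h2
    rw [FormalMultilinearSeries.sum, h3.tsum_eq]
  have hpre : IsPreconnected (ball y (R / 3)) := by
    let _ : NormedSpace ℝ E := NormedSpace.complexToReal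
    exact (convex_ball y (R / 3)).isPreconnected
  have heq := hfan.eqOn_of_preconnected_of_eventuallyEq hSan hpre
    (mem_ball_self (by positivity)) hev
  intro v hv
  have hmem : y + v ∈ ball y (R / 3) := by
    rw [mem_ball, dist_eq_norm, add_sub_cancel_left]; exact hv
  have h1 := heq hmem
  have h2 := hS.hasSum (y := v) (by
    rw [mem_eball, edist_dist, dist_zero_right]
    exact lt_of_lt_of_le ((ENNReal.ofReal_lt_ofReal_iff (by positivity)).2 hv) hrad)
  rw [h1]
  exact h2

/-- Weierstrass M-test for holomorphic functions on a complex normed space. -/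
theorem analyticAt_tsum {f : ℕ → E → ℂ} {y : E} {R : ℝ} (hR : 0 < R) {u : ℕ → ℝ}
    (hu : Summable u) (hf : ∀ n, ∀ z ∈ ball y R, AnalyticAt ℂ (f n) z)
    (hb : ∀ n, ∀ z ∈ ball y R, ‖f n z‖ ≤ u n) :
    AnalyticAt ℂ (fun z => ∑' n, f n z) y := by
  have hu0 : ∀ n, 0 ≤ u n := fun n => (norm_nonneg _).trans (hb n y (mem_ball_self hR))
  have hPb : ∀ n k, ‖tay (f n) y k‖ ≤ 3 * u n * (3 / R) ^ k := fun n k =>
    tay_bound hR (hf n) (hb n) k
  have hPs : ∀ k, Summable fun n => tay (f n) y k := fun k =>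
    Summable.of_norm_bounded ((hu.mul_left 3).mul_right _) fun n => hPb n k
  set p : FormalMultilinearSeries ℂ E ℂ := fun k => ∑' n, tay (f n) y k with hp
  have hpn : ∀ k, ‖p k‖ ≤ 3 * (∑' n, u n) * (3 / R) ^ k := by
    intro k
    have h1 : ‖p k‖ ≤ ∑' n, 3 * u n * (3 / R) ^ k :=
      tsum_of_norm_bounded ((hu.mul_left 3).mul_right _).hasSum fun n => hPb n k
    rw [tsum_mul_right, tsum_mul_left] at h1
    exact h1
  have hU0 : 0 ≤ ∑' n, u n := tsum_nonneg hu0
  refine ⟨p, ENNReal.ofReal (R / 6), ?_⟩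
  refine ⟨?_, by simpa using hR, ?_⟩
  · have := p.le_radius_of_bound (r := (R / 6).toNNReal) (3 * ∑' n, u n) (fun n => by
      rw [Real.coe_toNNReal _ (by positivity)]
      calc ‖p n‖ * (R / 6) ^ n ≤ 3 * (∑' n, u n) * (3 / R) ^ n * (R / 6) ^ n := by
            gcongr; exact hpn n
        _ = 3 * (∑' n, u n) * (1 / 2) ^ n := by
            rw [mul_assoc, ← mul_pow]
            have : 3 / R * (R / 6) = 1 / 2 := by field_simp; norm_num
            rw [this]
        _ ≤ 3 * (∑' n, u n) * 1 := by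
            gcongr
            exact pow_le_one₀ (by norm_num) (by norm_num)
        _ = _ := mul_one _)
    exact this
  · intro v hv
    have hv' : ‖v‖ < R / 6 := by
      rw [mem_eball, edist_dist, dist_zero_right] at hv
      exact (ENNReal.ofReal_lt_ofReal_iff (by positivity)).1 hv
    have hvb : 3 / R * ‖v‖ ≤ 1 / 2 := by
      rw [div_mul_eq_mul_div, div_le_iff₀ hR]; linarith
    set a : ℕ × ℕ → ℂ := fun nk => tay (f nk.1) y nk.2 (fun _ => v) with ha
    have hab : ∀ nk, ‖a nk‖ ≤ 3 * u nk.1 * (1 / 2) ^ nk.2 := by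
      intro nk
      calc ‖a nk‖ ≤ ‖tay (f nk.1) y nk.2‖ * ∏ _i : Fin nk.2, ‖v‖ :=
            ContinuousMultilinearMap.le_opNorm _ _
        _ ≤ 3 * u nk.1 * (3 / R) ^ nk.2 * ‖v‖ ^ nk.2 := by
            rw [Finset.prod_const, Finset.card_univ, Fintype.card_fin]
            gcongr; exact hPb _ _
        _ = 3 * u nk.1 * (3 / R * ‖v‖) ^ nk.2 := by rw [mul_pow]; ring
        _ ≤ 3 * u nk.1 * (1 / 2) ^ nk.2 := by
            have := hu0 nk.1
            gcongr
    have has : Summable a := by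
      refine Summable.of_norm_bounded ?_ hab
      exact (hu.mul_left 3).mul_of_nonneg (summable_geometric_two)
        (fun n => by have := hu0 n; positivity) (fun n => by positivity)
    have h1 : ∀ n, HasSum (fun k => a (n, k)) (f n (y + v)) := fun n =>
      tay_hasFPowerSeriesOnBall hR (hf n) (hb n) v (by linarith)
    have h2 : HasSum (fun n => f n (y + v)) (∑' nk, a nk) :=
      has.hasSum.prod_fiberwise h1
    have h3 : HasSum (fun nk : ℕ × ℕ => a nk.swap) (∑' nk, a nk) := by
      have := (Equiv.prodComm ℕ ℕ).hasSum_iff (f := a) (a := ∑' nk, a nk)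
      exact this.2 has.hasSum
    have h4 : ∀ k, HasSum (fun n => a (n, k)) (p k (fun _ => v)) := by
      intro k
      have h5 := (hPs k).hasSum
      have h6 := (ContinuousMultilinearMap.apply ℂ (fun _ : Fin k => E) ℂ
        (fun _ => v)).hasSum h5
      exact h6
    have h5 : HasSum (fun k => p k (fun _ => v)) (∑' nk, a nk) :=
      h3.prod_fiberwise h4
    rw [h2.tsum_eq]
    exact h5

end Holo

end Pool.Agent.Helper395.AA
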