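import Pool.Agent.Helper395.AA.Series

open Filter Topology Asymptotics

namespace Pool.Agent.Helper395.AA


theorem freq_real (P : ℂ → Prop) (r : ℝ) (hr : 0 < r) (h : ∀ x : ℝ, |x| < r → P x) :
    ∃ᶠ z in 𝓝[≠] (0 : ℂ), P z := by
  have ht : Tendsto (fun x : ℝ => (x : ℂ)) (𝓝[≠] (0 : ℝ)) (𝓝[≠] (0 : ℂ)) := by
    rw [tendsto_nhdsWithin_iff]
    refine ⟨(Complex.continuous_ofReal.tendsto' 0 0 (by simp)).mono_left nhdsWithin_le_nhds, ?_⟩
    filter_upwards [self_mem_nhdsWithin] with x hx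
    simpa using hx
  refine ht.frequently ?_
  have h1 : ∀ᶠ x : ℝ in 𝓝[≠] (0 : ℝ), P (x : ℂ) := by
    have h2 : ∀ᶠ x : ℝ in 𝓝 (0 : ℝ), |x| < r := by
      have := Metric.ball_mem_nhds (0 : ℝ) hr
      filter_upwards [this] with x hx
      simpa using hx
    exact (h2.mono fun x hx => h x hx).filter_mono nhdsWithin_le_nhds
  exact h1.frequently

theorem totally_real_zero (D : ℂ × ℂ → ℂ) (hD : AnalyticAt ℂ D 0)
    (h : ∀ᶠ η in 𝓝 (0 : ℂ), D (η, (starRingEnd ℂ) η) = 0) :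
    ∀ᶠ p in 𝓝 (0 : ℂ × ℂ), D p = 0 := by
  set L : ℂ × ℂ → ℂ × ℂ := fun p => (p.1 + Complex.I * p.2, p.1 - Complex.I * p.2) with hL
  have hLa : AnalyticAt ℂ L 0 := by
    refine AnalyticAt.prod (f := fun p : ℂ × ℂ => p.1 + Complex.I * p.2)
      (g := fun p : ℂ × ℂ => p.1 - Complex.I * p.2) ?_ ?_
    · exact analyticAt_fst.add (analyticAt_const.mul analyticAt_snd)
    · exact analyticAt_fst.sub (analyticAt_const.mul analyticAt_snd)
  have hL0 : L 0 = 0 := by simp [hL]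
  have hD2 : AnalyticAt ℂ (D ∘ L) 0 := by
    refine AnalyticAt.comp ?_ hLa
    rw [hL0]; exact hD
  obtain ⟨r1, hr1, hb1⟩ := Metric.eventually_nhds_iff_ball.mp hD2.eventually_analyticAt
  obtain ⟨r2, hr2, hb2⟩ := Metric.eventually_nhds_iff_ball.mp h
  set r := min r1 (r2 / 2) with hr
  have hr0 : 0 < r := lt_min hr1 (by positivity)
  have hAn : ∀ x ∈ Metric.ball (0 : ℂ) r, ∀ y ∈ Metric.ball (0 : ℂ) r,
      AnalyticAt ℂ (D ∘ L) (x, y) := by
    intro x hx y hy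
    apply hb1
    rw [mem_ball_zero_iff] at hx hy ⊢
    rw [Prod.norm_def]
    exact (max_lt hx hy).trans_le (min_le_left _ _)
  have hreal : ∀ x y : ℝ, |x| < r → |y| < r → (D ∘ L) ((x : ℂ), (y : ℂ)) = 0 := by
    intro x y hx hy
    have h1 := hb2 ((x : ℂ) + Complex.I * y) (by
      rw [mem_ball_zero_iff]
      calc ‖(x : ℂ) + Complex.I * y‖ ≤ ‖(x : ℂ)‖ + ‖Complex.I * y‖ := norm_add_le _ _
        _ = |x| + |y| := by simp
        _ < r + r := by linarith
        _ ≤ r2 := by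
            have : r ≤ r2 / 2 := min_le_right _ _
            linarith)
    have h2 : (starRingEnd ℂ) ((x : ℂ) + Complex.I * y) = (x : ℂ) - Complex.I * y := by
      simp [sub_eq_add_neg]
    rw [h2] at h1
    exact h1
  have hpc : IsPreconnected (Metric.ball (0 : ℂ) r) := (convex_ball _ _).isPreconnected
  have h0 : (0 : ℂ) ∈ Metric.ball (0 : ℂ) r := Metric.mem_ball_self hr0
  have step1 : ∀ y : ℝ, |y| < r → ∀ x ∈ Metric.ball (0 : ℂ) r, (D ∘ L) (x, (y : ℂ)) = 0 := by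
    intro y hy x hx
    have hyb : (y : ℂ) ∈ Metric.ball (0 : ℂ) r := by
      rw [mem_ball_zero_iff]; simpa using hy
    have han : AnalyticOnNhd ℂ (fun x : ℂ => (D ∘ L) (x, (y : ℂ))) (Metric.ball (0 : ℂ) r) := by
      intro z hz
      exact AnalyticAt.comp (g := D ∘ L) (f := fun x : ℂ => (x, (y : ℂ))) (hAn z hz _ hyb)
        (analyticAt_id.prod analyticAt_const)
    exact han.eqOn_zero_of_preconnected_of_frequently_eq_zero hpc h0
      (freq_real _ r hr0 fun t ht => hreal t y ht hy) hx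
  have step2 : ∀ x ∈ Metric.ball (0 : ℂ) r, ∀ y ∈ Metric.ball (0 : ℂ) r, (D ∘ L) (x, y) = 0 := by
    intro x hx y hy
    have han : AnalyticOnNhd ℂ (fun y : ℂ => (D ∘ L) (x, y)) (Metric.ball (0 : ℂ) r) := by
      intro z hz
      exact AnalyticAt.comp (g := D ∘ L) (f := fun y : ℂ => (x, y)) (hAn x hx z hz)
        (analyticAt_const.prod analyticAt_id)
    exact han.eqOn_zero_of_preconnected_of_frequently_eq_zero hpc h0
      (freq_real _ r hr0 fun t ht => step1 t ht x hx) hy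
  -- inverse
  have hc1 : ContinuousAt (fun p : ℂ × ℂ => (p.1 + p.2) / 2) 0 := by fun_prop
  have hc2 : ContinuousAt (fun p : ℂ × ℂ => (p.1 - p.2) / (2 * Complex.I)) 0 := by fun_prop
  have e1 : ∀ᶠ p in 𝓝 (0 : ℂ × ℂ), (p.1 + p.2) / 2 ∈ Metric.ball (0 : ℂ) r :=
    hc1.eventually_mem (Metric.isOpen_ball.mem_nhds (by simpa using hr0))
  have e2 : ∀ᶠ p in 𝓝 (0 : ℂ × ℂ), (p.1 - p.2) / (2 * Complex.I) ∈ Metric.ball (0 : ℂ) r :=
    hc2.eventually_mem (Metric.isOpen_ball.mem_nhds (by simpa using hr0))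
  filter_upwards [e1, e2] with p hp1 hp2
  have h3 := step2 _ hp1 _ hp2
  have h4 : L ((p.1 + p.2) / 2, (p.1 - p.2) / (2 * Complex.I)) = p := by
    have hI : Complex.I ≠ 0 := Complex.I_ne_zero
    simp only [hL]
    ext
    · simp only; field_simp; ring
    · simp only; field_simp; ring
  simp only [Function.comp_apply] at h3
  rwa [h4] at h3

/-- the point of (the complexification of) `M` over `z₁ = z₂ = 0` -/
noncomputable def zc (p : ℂ × ℂ) : Fin 5 → ℂ := ![0, 0, p.1, p.1 * p.2, p.1 * E p.2]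



/-- conjugated power series coefficient -/
noncomputable def cjs {n : ℕ} (p : FormalMultilinearSeries ℂ (Fin n → ℂ) ℂ) :
    FormalMultilinearSeries ℂ (Fin n → ℂ) ℂ := fun k =>
  MultilinearMap.mkContinuous
    { toFun := fun v => (starRingEnd ℂ) (p k (fun i => star (v i)))
      map_update_add' := by
        intro inst v i x y
        have e : ∀ z : Fin n → ℂ, (fun j => star (Function.update v i z j)) = Function.update (fun j => star (v j)) i (star z) := by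
          intro z
          funext j
          by_cases hj : j = i
          · subst hj; simp
          · simp [Function.update_of_ne hj]
        rw [e, e, e, star_add, (p k).map_update_add, map_add]
      map_update_smul' := by
        intro inst v i c x
        have e : ∀ z : Fin n → ℂ, (fun j => star (Function.update v i z j)) = Function.update (fun j => star (v j)) i (star z) := by
          intro z
          funext j
          by_cases hj : j = i
          · subst hj; simp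
          · simp [Function.update_of_ne hj]
        rw [e, e, star_smul, (p k).map_update_smul]
        simp }
    ‖p k‖ (by
      intro v
      show ‖(starRingEnd ℂ) (p k (fun i => star (v i)))‖ ≤ _
      rw [RCLike.norm_conj]
      refine ((p k).le_opNorm _).trans ?_
      simp only [norm_star]
      exact le_rfl)

theorem cjs_apply {n : ℕ} (p : FormalMultilinearSeries ℂ (Fin n → ℂ) ℂ) (k : ℕ) (v : Fin k → Fin n → ℂ) :
    cjs p k v = (starRingEnd ℂ) (p k (fun i => star (v i))) := rfl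

theorem cjs_norm {n : ℕ} (p : FormalMultilinearSeries ℂ (Fin n → ℂ) ℂ) (k : ℕ) : ‖cjs p k‖ ≤ ‖p k‖ :=
  MultilinearMap.mkContinuous_norm_le _ (norm_nonneg _) _

theorem conj_analytic {n : ℕ} (f : (Fin n → ℂ) → ℂ) (hf : AnalyticAt ℂ f 0) :
    AnalyticAt ℂ (fun w => (starRingEnd ℂ) (f (star w))) 0 := by
  obtain ⟨p, r, hp⟩ := hf
  refine ⟨cjs p, r, ?_, hp.r_pos, ?_⟩
  · exact hp.r_le.trans (FormalMultilinearSeries.radius_le_of_le (fun k => cjs_norm p k))
  · intro y hy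
    have hy' : star y ∈ Metric.eball (0 : Fin n → ℂ) r := by
      simp only [Metric.mem_eball, edist_zero_right] at hy ⊢
      have : ‖star y‖ₑ = ‖y‖ₑ := by
        rw [← ofReal_norm, ← ofReal_norm, norm_star]
      rw [this]; exact hy
    have h := hp.hasSum hy'
    have h2 := Complex.hasSum_conj'.2 h
    simp only [zero_add] at h2 ⊢
    exact h2


theorem hE0 : AnalyticAt ℂ (fun p : ℂ × ℂ => E p.2) 0 := by
  have h1 : AnalyticAt ℂ E ((0 : ℂ × ℂ).2) := E_analytic (by simp)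
  exact AnalyticAt.fun_comp h1 analyticAt_snd

theorem zc_analytic : AnalyticAt ℂ zc 0 := by
  rw [analyticAt_pi_iff]
  intro i
  fin_cases i
  · exact analyticAt_const
  · exact analyticAt_const
  · exact analyticAt_fst
  · exact analyticAt_fst.mul analyticAt_snd
  · exact analyticAt_fst.mul hE0

theorem zc_zero : zc 0 = 0 := by
  funext i
  fin_cases i <;> simp [zc]

theorem zcs_analytic : AnalyticAt ℂ (fun p : ℂ × ℂ => zc (p.2, p.1)) 0 := by
  have h1 : AnalyticAt ℂ zc ((fun p : ℂ × ℂ => (p.2, p.1)) 0) := zc_analytic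
  exact AnalyticAt.fun_comp h1 (AnalyticAt.prod analyticAt_snd analyticAt_fst)

theorem zc_bigO : zc =O[𝓝 0] fun p => ‖p‖ := by
  have := zc_analytic.differentiableAt.isBigO_sub
  simp only [zc_zero, sub_zero] at this
  exact this.norm_right

theorem zcs_bigO : (fun p : ℂ × ℂ => zc (p.2, p.1)) =O[𝓝 0] fun p => ‖p‖ := by
  have := zcs_analytic.differentiableAt.isBigO_sub
  have h0 : zc ((0 : ℂ × ℂ).2, (0 : ℂ × ℂ).1) = 0 := zc_zero
  simp only [h0, sub_zero] at this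
  exact this.norm_right

theorem zc_star (η : ℂ) : star (zc ((starRingEnd ℂ) η, η)) = zc (η, (starRingEnd ℂ) η) := by
  funext i
  fin_cases i <;> simp [zc, E_conj, mul_comm]

theorem rhoF1_zc (η : ℂ) : rho (m := 2) F1 (zc (η, (starRingEnd ℂ) η)) = 0 := by
  have ht : tau (m := 2) (zc (η, (starRingEnd ℂ) η)) = (starRingEnd ℂ) η := by
    have h0 : zc (η, (starRingEnd ℂ) η) (Fin.castAdd 2 (0 : Fin 3)) = 0 := rfl
    have h1 : zc (η, (starRingEnd ℂ) η) (Fin.castAdd 2 (1 : Fin 3)) = 0 := rfl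
    have h2 : zc (η, (starRingEnd ℂ) η) (Fin.castAdd 2 (2 : Fin 3)) = η := rfl
    unfold tau
    rw [h0, h1, h2]; simp
  have h2 : zc (η, (starRingEnd ℂ) η) (Fin.castAdd 2 (2 : Fin 3)) = η := rfl
  funext j
  unfold rho
  rw [ht, h2]
  fin_cases j
  · show η * (starRingEnd ℂ) η - η * (starRingEnd ℂ) η = 0
    ring
  · show η * E ((starRingEnd ℂ) η) - η * E ((starRingEnd ℂ) η) = 0
    ring

theorem rhoF2_eq (W : Fin 6 → ℂ) (hW : rho (m := 3) F2 W = 0) (s : ℂ)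
    (hs : s = (starRingEnd ℂ) (W 2) + W 0 * (starRingEnd ℂ) (W 0) + Complex.I * (W 1 * (starRingEnd ℂ) (W 1))) :
    W 3 = W 2 * s ∧ W 4 = W 2 * E s ∧ W 5 = gg (W 2, s) := by
  have ht : tau (m := 3) W = s := by rw [hs]; rfl
  have h0 := congrFun hW 0
  have h1 := congrFun hW 1
  have h2 := congrFun hW 2
  unfold rho at h0 h1 h2
  rw [ht] at h0 h1 h2
  refine ⟨sub_eq_zero.1 h0, sub_eq_zero.1 h1, sub_eq_zero.1 h2⟩

theorem comp_bigO (f : (Fin 5 → ℂ) → ℂ) (hf : f =O[𝓝 0] fun z => ‖z‖ ^ 2)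
    (g : ℂ × ℂ → (Fin 5 → ℂ)) (hg : Tendsto g (𝓝 0) (𝓝 0)) (hg2 : g =O[𝓝 0] fun p => ‖p‖) :
    (fun p => f (g p)) =O[𝓝 0] fun p => ‖p‖ ^ 2 := by
  have h1 := hf.comp_tendsto hg
  exact h1.trans (hg2.norm_left.pow 2)

theorem complexified (h : (Fin 5 → ℂ) → (Fin 6 → ℂ)) (hh : AnalyticAt ℂ h 0)
    (hM : ∀ᶠ z in 𝓝 (0 : Fin 5 → ℂ), rho (m := 2) F1 z = 0 → rho (m := 3) F2 (h z) = 0)
    (h1 : ∀ i : Fin 5, (fun z : Fin 5 → ℂ => h z i.castSucc - z i) =O[𝓝 0] fun z => ‖z‖ ^ 2) :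
    ∃ T : ℂ × ℂ → ℂ, AnalyticAt ℂ T 0 ∧ ((fun p => T p - p.2) =O[𝓝 0] fun p => ‖p‖ ^ 2) ∧
      ∀ᶠ p in 𝓝 (0 : ℂ × ℂ), h (zc p) 3 = h (zc p) 2 * T p ∧
        h (zc p) 4 = h (zc p) 2 * E (T p) ∧ h (zc p) 5 = gg (h (zc p) 2, T p) := by
  -- components vanish at 0
  have hz : ∀ i : Fin 5, h 0 i.castSucc = 0 := by
    intro i
    obtain ⟨C, hC⟩ := (h1 i).bound
    have := hC.self_of_nhds
    simpa using this
  have hz2 : h 0 2 = 0 := hz 2
  have hz0 : h 0 0 = 0 := hz 0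
  have hz1 : h 0 1 = 0 := hz 1
  have hcomp : ∀ i, AnalyticAt ℂ (fun z => h z i) 0 := fun i => (analyticAt_pi_iff.1 hh) i
  -- composite with zc
  have hzc : ∀ i, AnalyticAt ℂ (fun p => h (zc p) i) 0 := by
    intro i
    have : AnalyticAt ℂ (fun z => h z i) (zc 0) := by rw [zc_zero]; exact hcomp i
    exact AnalyticAt.fun_comp this zc_analytic
  set hb : Fin 6 → (Fin 5 → ℂ) → ℂ := fun i w => (starRingEnd ℂ) (h (star w) i) with hbdef
  have hb_an : ∀ i, AnalyticAt ℂ (hb i) 0 := fun i => conj_analytic _ (hcomp i)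
  have h00 : zc ((0 : ℂ × ℂ).2, (0 : ℂ × ℂ).1) = 0 := zc_zero
  have hbz : ∀ i, AnalyticAt ℂ (fun p : ℂ × ℂ => hb i (zc (p.2, p.1))) 0 := by
    intro i
    have : AnalyticAt ℂ (hb i) ((fun p : ℂ × ℂ => zc (p.2, p.1)) 0) := by
      show AnalyticAt ℂ (hb i) (zc ((0 : ℂ × ℂ).2, (0 : ℂ × ℂ).1))
      rw [h00]; exact hb_an i
    exact AnalyticAt.fun_comp this zcs_analytic
  set T : ℂ × ℂ → ℂ := fun p => hb 2 (zc (p.2, p.1)) + h (zc p) 0 * hb 0 (zc (p.2, p.1))
    + Complex.I * (h (zc p) 1 * hb 1 (zc (p.2, p.1))) with hTdef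
  have hTan : AnalyticAt ℂ T 0 :=
    ((hbz 2).add ((hzc 0).mul (hbz 0))).add (analyticAt_const.mul ((hzc 1).mul (hbz 1)))
  have hT0 : T 0 = 0 := by
    rw [hTdef]
    simp only [h00, zc_zero, hbdef, hz0, hz1, star_zero, hz2]
    simp
  have htz : Tendsto zc (𝓝 0) (𝓝 0) := by
    have := zc_analytic.continuousAt.tendsto
    rwa [zc_zero] at this
  have htzs : Tendsto (fun p : ℂ × ℂ => zc (p.2, p.1)) (𝓝 0) (𝓝 0) := by
    have := zcs_analytic.continuousAt.tendsto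
    rwa [h00] at this
  refine ⟨T, hTan, ?_, ?_⟩
  · -- second order
    have e2 : (fun w => hb 2 w - w 2) =O[𝓝 0] fun w : Fin 5 → ℂ => ‖w‖ ^ 2 := by
      have hs : Tendsto (fun w : Fin 5 → ℂ => star w) (𝓝 0) (𝓝 0) := by
        have := (continuous_star (R := Fin 5 → ℂ)).tendsto 0
        simpa using this
      have := (h1 2).comp_tendsto hs
      refine IsBigO.trans (IsBigO.of_norm_le (fun w => ?_)) (this.norm_left.trans (IsBigO.of_norm_le (fun w => ?_)))
      · simp only [Function.comp, hbdef]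
        have e : (starRingEnd ℂ) (h (star w) 2) - w 2 = (starRingEnd ℂ) (h (star w) 2 - (star w) 2) := by
          simp
        rw [e, RCLike.norm_conj]
        exact le_rfl
      · simp [norm_star]
    have p2 : (fun p : ℂ × ℂ => hb 2 (zc (p.2, p.1)) - p.2) =O[𝓝 0] fun p => ‖p‖ ^ 2 :=
      comp_bigO _ e2 _ htzs zcs_bigO
    have p0 : (fun p : ℂ × ℂ => h (zc p) 0) =O[𝓝 0] fun p => ‖p‖ ^ 2 := by
      have := comp_bigO _ (h1 0) _ htz zc_bigO
      refine this.congr_left (fun p => ?_)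
      show h (zc p) 0 - zc p 0 = h (zc p) 0
      have : zc p 0 = 0 := rfl
      rw [this, sub_zero]
    have p1 : (fun p : ℂ × ℂ => h (zc p) 1) =O[𝓝 0] fun p => ‖p‖ ^ 2 := by
      have := comp_bigO _ (h1 1) _ htz zc_bigO
      refine this.congr_left (fun p => ?_)
      show h (zc p) 1 - zc p 1 = h (zc p) 1
      have : zc p 1 = 0 := rfl
      rw [this, sub_zero]
    have b0 : (fun p : ℂ × ℂ => hb 0 (zc (p.2, p.1))) =O[𝓝 0] fun _ => (1:ℝ) :=
      (hbz 0).continuousAt.tendsto.isBigO_one ℝ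
    have b1 : (fun p : ℂ × ℂ => hb 1 (zc (p.2, p.1))) =O[𝓝 0] fun _ => (1:ℝ) :=
      (hbz 1).continuousAt.tendsto.isBigO_one ℝ
    have m0 : (fun p : ℂ × ℂ => h (zc p) 0 * hb 0 (zc (p.2, p.1))) =O[𝓝 0] fun p => ‖p‖ ^ 2 := by
      simpa using p0.mul b0
    have m1 : (fun p : ℂ × ℂ => Complex.I * (h (zc p) 1 * hb 1 (zc (p.2, p.1)))) =O[𝓝 0] fun p => ‖p‖ ^ 2 := by
      have := (p1.mul b1).const_mul_left Complex.I
      simpa using this
    refine ((p2.add m0).add m1).congr_left (fun p => ?_)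
    rw [hTdef]; ring
  · -- the three equations
    have hη : ∀ᶠ η in 𝓝 (0:ℂ), ∀ (p : ℂ × ℂ), p = (η, (starRingEnd ℂ) η) →
        h (zc p) 3 = h (zc p) 2 * T p ∧
        h (zc p) 4 = h (zc p) 2 * E (T p) ∧ h (zc p) 5 = gg (h (zc p) 2, T p) := by
      have hcont : Tendsto (fun η : ℂ => zc (η, (starRingEnd ℂ) η)) (𝓝 0) (𝓝 0) := by
        have h1 : Tendsto (fun η : ℂ => (η, (starRingEnd ℂ) η)) (𝓝 0) (𝓝 (0 : ℂ × ℂ)) := by
          have : Continuous (fun η : ℂ => (η, (starRingEnd ℂ) η)) := by fun_prop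
          have := this.tendsto 0
          have e : ((0:ℂ), (starRingEnd ℂ) 0) = (0 : ℂ × ℂ) := by simp
          rwa [e] at this
        exact htz.comp h1
      filter_upwards [hcont.eventually hM] with η hη p hp
      subst hp
      have hr := hη (rhoF1_zc η)
      apply rhoF2_eq _ hr
      rw [hTdef]
      simp only [hbdef, zc_star]
    have D3 : AnalyticAt ℂ (fun p => h (zc p) 3 - h (zc p) 2 * T p) 0 :=
      (hzc 3).sub ((hzc 2).mul hTan)
    have hET : AnalyticAt ℂ (fun p => E (T p)) 0 := by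
      have : AnalyticAt ℂ E (T 0) := by rw [hT0]; exact E_analytic (by simp)
      exact AnalyticAt.fun_comp this hTan
    have D4 : AnalyticAt ℂ (fun p => h (zc p) 4 - h (zc p) 2 * E (T p)) 0 :=
      (hzc 4).sub ((hzc 2).mul hET)
    have hG : AnalyticAt ℂ (fun p => gg (h (zc p) 2, T p)) 0 := by
      have : AnalyticAt ℂ gg ((fun p : ℂ × ℂ => (h (zc p) 2, T p)) 0) := by
        show AnalyticAt ℂ gg (h (zc 0) 2, T 0)
        rw [hT0, zc_zero, hz2]
        apply gg_analytic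
        simp
      exact AnalyticAt.fun_comp this (AnalyticAt.prod (hzc 2) hTan)
    have D5 : AnalyticAt ℂ (fun p => h (zc p) 5 - gg (h (zc p) 2, T p)) 0 :=
      (hzc 5).sub hG
    have r3 := totally_real_zero _ D3 (hη.mono fun η hη => sub_eq_zero.2 (hη _ rfl).1)
    have r4 := totally_real_zero _ D4 (hη.mono fun η hη => sub_eq_zero.2 (hη _ rfl).2.1)
    have r5 := totally_real_zero _ D5 (hη.mono fun η hη => sub_eq_zero.2 (hη _ rfl).2.2)
    filter_upwards [r3, r4, r5] with p q3 q4 q5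
    exact ⟨sub_eq_zero.1 q3, sub_eq_zero.1 q4, sub_eq_zero.1 q5⟩


theorem aux_base {V : Type*} [NormedAddCommGroup V] [NormedSpace ℂ V] (F : V → V)
    (hF : (fun x => F x - x) =O[𝓝 0] fun x => ‖x‖ ^ 2) :
    F 0 = 0 ∧ HasFDerivAt F (ContinuousLinearMap.id ℂ V) 0 := by
  have h1 : (fun x => F x - x) =O[𝓝 0] fun x => ‖x - 0‖ ^ 2 := by simpa using hF
  refine ⟨?_, ?_⟩
  · have := h1.eq_zero_of_norm_pow (by norm_num)
    simpa using this
  · have h2 : HasFDerivAt (fun x => F x - x) (0 : V →L[ℂ] V) 0 := h1.hasFDerivAt (by norm_num)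
    have h3 := h2.add (hasFDerivAt_id (𝕜 := ℂ) (0 : V))
    have e1 : (fun x => F x - x) + id = F := by
      funext x; simp
    rw [e1, zero_add] at h3
    exact h3

theorem aux_inv {V : Type*} [NormedAddCommGroup V] [NormedSpace ℂ V] [CompleteSpace V] (F : V → V)
    (hA : AnalyticAt ℂ F 0) (hF : (fun x => F x - x) =O[𝓝 0] fun x => ‖x‖ ^ 2) :
    ∃ G : V → V, AnalyticAt ℂ G 0 ∧ G 0 = 0 ∧ (∀ᶠ x in 𝓝 0, G (F x) = x) ∧
      ∀ᶠ x in 𝓝 0, F (G x) = x := by
  obtain ⟨h0, hd⟩ := aux_base F hF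
  have hS : HasStrictFDerivAt F ((ContinuousLinearEquiv.refl ℂ V : V ≃L[ℂ] V) : V →L[ℂ] V) 0 := by
    have := hA.hasStrictFDerivAt
    rw [hd.fderiv] at this
    exact this
  let R := hS.toOpenPartialHomeomorph F
  have hx : (0:V) ∈ R.source := HasStrictFDerivAt.mem_toOpenPartialHomeomorph_source _
  have hRa : AnalyticAt ℂ R.symm (R 0) := by
    refine R.analyticAt_symm' (i := ContinuousLinearEquiv.refl ℂ V) hx hA ?_
    exact hS.hasFDerivAt.fderiv
  have hR0 : R 0 = 0 := h0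
  rw [hR0] at hRa
  refine ⟨R.symm, hRa, ?_, ?_, ?_⟩
  · have := R.left_inv hx
    rw [hR0] at this
    exact this
  · exact hS.eventually_left_inverse
  · have := hS.eventually_right_inverse
    rw [h0] at this
    exact this

theorem invert (h : (Fin 5 → ℂ) → (Fin 6 → ℂ)) (hh : AnalyticAt ℂ h 0)
    (h1 : ∀ i : Fin 5, (fun z : Fin 5 → ℂ => h z i.castSucc - z i) =O[𝓝 0] fun z => ‖z‖ ^ 2)
    (T : ℂ × ℂ → ℂ) (hT : AnalyticAt ℂ T 0)
    (hT1 : (fun p => T p - p.2) =O[𝓝 0] fun p => ‖p‖ ^ 2)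
    (heq : ∀ᶠ p in 𝓝 (0 : ℂ × ℂ), h (zc p) 3 = h (zc p) 2 * T p ∧
        h (zc p) 4 = h (zc p) 2 * E (T p) ∧ h (zc p) 5 = gg (h (zc p) 2, T p)) :
    ∃ K : (Fin 3 → ℂ) → ℂ, AnalyticAt ℂ K 0 ∧
      ∀ᶠ p in 𝓝 (0 : ℂ × ℂ), K ![p.1, p.1 * p.2, p.1 * E p.2] = gg p := by
  -- the embedding
  have hιa : AnalyticAt ℂ (fun x : Fin 3 → ℂ => (![0, 0, x 0, x 1, x 2] : Fin 5 → ℂ)) 0 := by
    rw [analyticAt_pi_iff]
    intro i
    fin_cases i
    · exact analyticAt_const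
    · exact analyticAt_const
    · exact (ContinuousLinearMap.proj (R := ℂ) (φ := fun _ : Fin 3 => ℂ) 0).analyticAt 0
    · exact (ContinuousLinearMap.proj (R := ℂ) (φ := fun _ : Fin 3 => ℂ) 1).analyticAt 0
    · exact (ContinuousLinearMap.proj (R := ℂ) (φ := fun _ : Fin 3 => ℂ) 2).analyticAt 0
  set ι : (Fin 3 → ℂ) → (Fin 5 → ℂ) := fun x => ![0, 0, x 0, x 1, x 2] with hι
  have hι0 : ι 0 = 0 := by
    funext i; fin_cases i <;> simp [hι]
  have hιn : ∀ x, ‖ι x‖ ≤ ‖x‖ := by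
    intro x
    rw [pi_norm_le_iff_of_nonneg (norm_nonneg _)]
    intro i
    fin_cases i
    · simp [hι]
    · simp [hι]
    · exact norm_le_pi_norm x 0
    · exact norm_le_pi_norm x 1
    · exact norm_le_pi_norm x 2
  have hιt : Tendsto ι (𝓝 0) (𝓝 0) := by
    have := hιa.continuousAt.tendsto
    rw [hι0] at this
    exact this
  have hhι : AnalyticAt ℂ (fun x => h (ι x)) 0 := by
    have hh' : AnalyticAt ℂ h (ι 0) := by rw [hι0]; exact hh
    exact hh'.comp hιa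
  have hcomp : ∀ j : Fin 6, AnalyticAt ℂ (fun x => h (ι x) j) 0 := by
    intro j
    exact (analyticAt_pi_iff.1 hhι) j
  -- the map H
  have hHa : AnalyticAt ℂ (fun x : Fin 3 → ℂ => (![h (ι x) 2, h (ι x) 3, h (ι x) 4] : Fin 3 → ℂ)) 0 := by
    rw [analyticAt_pi_iff]
    intro i
    fin_cases i
    · exact hcomp 2
    · exact hcomp 3
    · exact hcomp 4
  have hιO : (fun x => ‖ι x‖ ^ 2) =O[𝓝 0] fun x : Fin 3 → ℂ => ‖x‖ ^ 2 := by
    refine IsBigO.of_bound 1 (Eventually.of_forall fun x => ?_)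
    rw [one_mul, norm_pow, norm_pow, norm_norm, norm_norm]
    exact pow_le_pow_left₀ (norm_nonneg _) (hιn x) 2
  have hHO : (fun x : Fin 3 → ℂ => (![h (ι x) 2, h (ι x) 3, h (ι x) 4] : Fin 3 → ℂ) - x)
      =O[𝓝 0] fun x => ‖x‖ ^ 2 := by
    rw [isBigO_pi]
    intro i
    fin_cases i
    · exact ((h1 2).comp_tendsto hιt).trans hιO
    · exact ((h1 3).comp_tendsto hιt).trans hιO
    · exact ((h1 4).comp_tendsto hιt).trans hιO
  obtain ⟨Hi, hHia, hHi0, hHl, -⟩ := aux_inv _ hHa hHO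
  -- the map zc
  have hE2 : AnalyticAt ℂ (fun p : ℂ × ℂ => E p.2) 0 := by
    have hE : AnalyticAt ℂ E ((0 : ℂ × ℂ).2) := E_analytic (by simp)
    exact hE.comp analyticAt_snd
  have hzca : AnalyticAt ℂ zc 0 := by
    unfold zc
    rw [analyticAt_pi_iff]
    intro i
    fin_cases i
    · exact analyticAt_const
    · exact analyticAt_const
    · exact analyticAt_fst
    · exact analyticAt_fst.mul analyticAt_snd
    · exact analyticAt_fst.mul hE2
  have hzc0 : zc 0 = 0 := by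
    funext i; fin_cases i <;> simp [zc]
  have hzct : Tendsto zc (𝓝 0) (𝓝 0) := by
    have := hzca.continuousAt.tendsto
    rw [hzc0] at this
    exact this
  have hzcO : zc =O[𝓝 0] fun p => p := by
    have := hzca.differentiableAt.isBigO_sub
    simpa [hzc0] using this
  have hzcO2 : (fun p => ‖zc p‖ ^ 2) =O[𝓝 0] fun p : ℂ × ℂ => ‖p‖ ^ 2 := (hzcO.norm_norm).pow 2
  have hhz : AnalyticAt ℂ (fun p => h (zc p)) 0 := by
    have hh' : AnalyticAt ℂ h (zc 0) := by rw [hzc0]; exact hh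
    exact hh'.comp hzca
  -- the map Φ
  have hΦa : AnalyticAt ℂ (fun p : ℂ × ℂ => (h (zc p) 2, T p)) 0 :=
    ((analyticAt_pi_iff.1 hhz) 2).prod hT
  have hΦO : (fun p : ℂ × ℂ => (h (zc p) 2, T p) - p) =O[𝓝 0] fun p => ‖p‖ ^ 2 := by
    have e1 : (fun p : ℂ × ℂ => h (zc p) 2 - p.1) =O[𝓝 0] fun p => ‖p‖ ^ 2 :=
      ((h1 2).comp_tendsto hzct).trans hzcO2
    exact e1.prod_left hT1
  obtain ⟨Φi, hΦia, hΦi0, -, hΦr⟩ := aux_inv _ hΦa hΦO
  have hΦit : Tendsto Φi (𝓝 0) (𝓝 0) := by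
    have := hΦia.continuousAt.tendsto
    rw [hΦi0] at this
    exact this
  -- the answer
  refine ⟨fun x => h (ι (Hi x)) 5, ?_, ?_⟩
  · have h5 : AnalyticAt ℂ (fun x => h (ι x) 5) (Hi 0) := by rw [hHi0]; exact hcomp 5
    exact h5.comp hHia
  · -- the curve x(p)
    have hxt : Tendsto (fun p : ℂ × ℂ => (![p.1, p.1 * p.2, p.1 * E p.2] : Fin 3 → ℂ))
        (𝓝 0) (𝓝 0) := by
      rw [tendsto_pi_nhds]
      intro i
      have a1 : Tendsto (fun p : ℂ × ℂ => p.1) (𝓝 0) (𝓝 0) := by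
        have := (continuous_fst (X := ℂ) (Y := ℂ)).tendsto 0
        simpa using this
      have a2 : Tendsto (fun p : ℂ × ℂ => p.1 * p.2) (𝓝 0) (𝓝 0) := by
        have h1 : Tendsto (fun p : ℂ × ℂ => p.1 * p.2) (𝓝 0) (𝓝 ((0:ℂ × ℂ).1 * (0:ℂ × ℂ).2)) :=
          ((continuous_fst (X := ℂ) (Y := ℂ)).mul continuous_snd).tendsto 0
        have e : (0:ℂ × ℂ).1 * (0:ℂ × ℂ).2 = 0 := by simp
        rw [e] at h1
        exact h1
      have a3 : Tendsto (fun p : ℂ × ℂ => p.1 * E p.2) (𝓝 0) (𝓝 0) := by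
        have h1 : Tendsto (fun p : ℂ × ℂ => p.1 * E p.2) (𝓝 0) (𝓝 ((0:ℂ × ℂ).1 * E (0:ℂ × ℂ).2)) :=
          (analyticAt_fst.mul hE2).continuousAt.tendsto
        have e : (0:ℂ × ℂ).1 * E (0:ℂ × ℂ).2 = 0 := by simp
        rw [e] at h1
        exact h1
      fin_cases i
      · exact a1
      · exact a2
      · exact a3
    have ev1 := hΦit.eventually heq
    have ev2 := (hxt.comp hΦit).eventually hHl
    filter_upwards [ev1, ev2, hΦr] with q hq1 hq2 hq3
    obtain ⟨hq3a, hq3b⟩ := Prod.mk.injEq _ _ _ _ ▸ hq3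
    obtain ⟨b1, b2, b3⟩ := hq1
    rw [hq3a, hq3b] at b1 b2 b3
    have hι' : ι ![(Φi q).1, (Φi q).1 * (Φi q).2, (Φi q).1 * E (Φi q).2] = zc (Φi q) := rfl
    simp only [Function.comp] at hq2
    rw [hι', b1, b2, hq3a] at hq2
    change h (ι (Hi ![q.1, q.1 * q.2, q.1 * E q.2])) 5 = gg q
    rw [hq2, hι', b3]

end Pool.Agent.Helper395.AA
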