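import Pool.Agent.Helper395.AA.Lac
import Pool.Agent.Helper395.AA.MTest

open Filter Topology Asymptotics

namespace Pool.Agent.Helper395.AA

theorem ex_ge' (k : ℕ) : k + 1 ≤ ex k := Nat.self_le_factorial (k + 1)

theorem term_bd {p : ℂ × ℂ} (h : ‖p‖ < 1 / 8) (k : ℕ) :
    ‖cc k * p.1 ^ ex k * tl k p.2‖ ≤ 8 * (1 / 2) ^ k * ‖p‖ * ‖p‖ ^ (k + 1) := by
  have h1 : ‖p.1‖ ≤ ‖p‖ := norm_fst_le p
  have h2 : ‖p.2‖ ≤ ‖p‖ := norm_snd_le p
  have hp0 : 0 ≤ ‖p‖ := norm_nonneg p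
  have h3 : ‖tl k p.2‖ ≤ 2 * ‖p.2‖ ^ ex (k + 1) := tl_bound (by linarith)
  have h4 : ‖tl k p.2‖ ≤ 2 * ‖p‖ ^ ex (k + 1) :=
    h3.trans (mul_le_mul_of_nonneg_left (pow_le_pow_left₀ (norm_nonneg _) h2 _) (by norm_num))
  have h5 : ‖cc k‖ = 4 ^ ex (k + 1) := by
    unfold cc
    rw [norm_pow]
    norm_num
  rw [norm_mul, norm_mul, norm_pow, h5]
  have h6 : ‖p.1‖ ^ ex k ≤ ‖p‖ ^ (k + 1) :=
    (pow_le_pow_left₀ (norm_nonneg _) h1 _).trans
      (pow_le_pow_of_le_one hp0 (by linarith) (ex_ge' k))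
  have h7 : (4 * ‖p‖) ^ ex (k + 1) ≤ 4 * ‖p‖ * (1 / 2) ^ k := by
    have h8 : (4 * ‖p‖) ^ ex (k + 1) ≤ (4 * ‖p‖) ^ (k + 1) :=
      pow_le_pow_of_le_one (by positivity) (by linarith) (by have := ex_ge' (k + 1); omega)
    have h9 : (4 * ‖p‖) ^ (k + 1) = 4 * ‖p‖ * (4 * ‖p‖) ^ k := by ring
    have h10 : (4 * ‖p‖) ^ k ≤ (1 / 2) ^ k := pow_le_pow_left₀ (by positivity) (by linarith) _
    rw [h9] at h8
    exact h8.trans (mul_le_mul_of_nonneg_left h10 (by positivity))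
  calc 4 ^ ex (k + 1) * ‖p.1‖ ^ ex k * ‖tl k p.2‖
      ≤ 4 ^ ex (k + 1) * ‖p‖ ^ (k + 1) * (2 * ‖p‖ ^ ex (k + 1)) := by
        apply mul_le_mul (mul_le_mul_of_nonneg_left h6 (by positivity)) h4 (norm_nonneg _)
          (by positivity)
    _ = 2 * (4 * ‖p‖) ^ ex (k + 1) * ‖p‖ ^ (k + 1) := by rw [mul_pow]; ring
    _ ≤ 2 * (4 * ‖p‖ * (1 / 2) ^ k) * ‖p‖ ^ (k + 1) := by
        apply mul_le_mul_of_nonneg_right (mul_le_mul_of_nonneg_left h7 (by norm_num))
          (by positivity)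
    _ = 8 * (1 / 2) ^ k * ‖p‖ * ‖p‖ ^ (k + 1) := by ring

theorem term_bd2 {p : ℂ × ℂ} (h : ‖p‖ < 1 / 8) (k : ℕ) :
    ‖cc k * p.1 ^ ex k * tl k p.2‖ ≤ (1 / 2) ^ k := by
  have hp0 : 0 ≤ ‖p‖ := norm_nonneg p
  refine (term_bd h k).trans ?_
  have h1 : ‖p‖ ^ (k + 1) ≤ 1 := pow_le_one₀ hp0 (by linarith)
  have h2 : 0 ≤ ((1 : ℝ) / 2) ^ k := by positivity
  have h3 : 8 * (1 / 2) ^ k * ‖p‖ ≤ (1 / 2) ^ k := by nlinarith
  have h4 : 0 ≤ 8 * (1 / 2) ^ k * ‖p‖ := by positivity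
  calc 8 * (1 / 2) ^ k * ‖p‖ * ‖p‖ ^ (k + 1) ≤ 8 * (1 / 2) ^ k * ‖p‖ * 1 :=
        mul_le_mul_of_nonneg_left h1 h4
    _ ≤ (1 / 2) ^ k := by rw [mul_one]; exact h3

theorem gg_hasSum {p : ℂ × ℂ} (h : ‖p‖ < 1 / 8) :
    HasSum (fun k : ℕ => cc k * p.1 ^ ex k * tl k p.2) (gg p) :=
  (Summable.of_norm_bounded summable_geometric_two (fun k => term_bd2 h k)).hasSum

theorem gg_analytic {p : ℂ × ℂ} (h : ‖p‖ < 1 / 8) : AnalyticAt ℂ gg p := by
  have hball : ∀ z ∈ Metric.ball p (1 / 8 - ‖p‖), ‖z‖ < 1 / 8 := by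
    intro z hz
    rw [Metric.mem_ball, dist_eq_norm] at hz
    have h1 : ‖z‖ ≤ ‖z - p‖ + ‖p‖ := by
      have := norm_add_le (z - p) p
      rwa [sub_add_cancel] at this
    linarith
  refine analyticAt_tsum (f := fun k (p : ℂ × ℂ) => cc k * p.1 ^ ex k * tl k p.2)
    (R := 1 / 8 - ‖p‖) (by linarith) (u := fun k => (1 / 2) ^ k) summable_geometric_two ?_ ?_
  · intro n z hz
    have hz1 := hball z hz
    have h2 : ‖z.2‖ < 1 := lt_of_le_of_lt (norm_snd_le z) (by linarith)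
    have h3 : AnalyticAt ℂ (fun w : ℂ × ℂ => tl n w.2) z :=
      AnalyticAt.comp' (g := tl n) (f := fun w : ℂ × ℂ => w.2) (tl_analytic h2) analyticAt_snd
    exact (analyticAt_const.mul (analyticAt_fst.pow _)).mul h3
  · intro n z hz
    exact term_bd2 (hball z hz) n

theorem gg_zero : gg 0 = 0 := by
  unfold gg
  have : ∀ k : ℕ, cc k * (0 : ℂ × ℂ).1 ^ ex k * tl k (0 : ℂ × ℂ).2 = 0 := by
    intro k
    have h : ex k ≠ 0 := by have := ex_ge' k; omega
    simp [zero_pow h]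
  simp only [this, tsum_zero]

theorem gg_tail (K : ℕ) :
    (fun p : ℂ × ℂ => gg p - ∑ k ∈ Finset.range (K + 1), cc k * p.1 ^ ex k * tl k p.2)
      =O[𝓝 0] fun p => ‖p‖ ^ (K + 1) := by
  rw [Asymptotics.isBigO_iff]
  refine ⟨2, ?_⟩
  have hev : ∀ᶠ p : ℂ × ℂ in 𝓝 0, ‖p‖ < 1 / 8 := by
    have := Metric.ball_mem_nhds (0 : ℂ × ℂ) (show (0 : ℝ) < 1 / 8 by norm_num)
    filter_upwards [this] with p hp
    simpa using hp
  filter_upwards [hev] with p hp
  have hp0 : 0 ≤ ‖p‖ := norm_nonneg p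
  have h1 := (hasSum_nat_add_iff' (K + 1)).2 (gg_hasSum hp)
  have h2 : HasSum (fun n : ℕ => ((1 : ℝ) / 2) ^ n * ‖p‖ ^ (K + 1)) (2 * ‖p‖ ^ (K + 1)) :=
    hasSum_geometric_two.mul_right _
  rw [← h1.tsum_eq, norm_pow, norm_norm]
  refine tsum_of_norm_bounded h2 fun n => ?_
  refine (term_bd hp (n + (K + 1))).trans ?_
  have h3 : ‖p‖ ^ (n + (K + 1) + 1) ≤ ‖p‖ ^ (K + 1) :=
    pow_le_pow_of_le_one hp0 (by linarith) (by omega)
  have h4 : 8 * (1 / 2) ^ (n + (K + 1)) * ‖p‖ ≤ (1 / 2) ^ n := by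
    have h5 : ((1 : ℝ) / 2) ^ (n + (K + 1)) ≤ (1 / 2) ^ n :=
      pow_le_pow_of_le_one (by norm_num) (by norm_num) (by omega)
    have h6 : 0 ≤ ((1 : ℝ) / 2) ^ (n + (K + 1)) := by positivity
    nlinarith
  exact mul_le_mul h4 h3 (by positivity) (by positivity)

theorem gg_fderiv : fderiv ℂ gg 0 = 0 := by
  have h : gg =O[𝓝 (0 : ℂ × ℂ)] fun x => ‖x - 0‖ ^ 2 := by
    rw [Asymptotics.isBigO_iff]
    refine ⟨16, ?_⟩
    have hev : ∀ᶠ p : ℂ × ℂ in 𝓝 0, ‖p‖ < 1 / 8 := by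
      have := Metric.ball_mem_nhds (0 : ℂ × ℂ) (show (0 : ℝ) < 1 / 8 by norm_num)
      filter_upwards [this] with p hp
      simpa using hp
    filter_upwards [hev] with p hp
    have hp0 : 0 ≤ ‖p‖ := norm_nonneg p
    have h2 : HasSum (fun n : ℕ => 8 * (((1 : ℝ) / 2) ^ n * ‖p‖ ^ 2)) (8 * (2 * ‖p‖ ^ 2)) :=
      (hasSum_geometric_two.mul_right _).mul_left _
    have h3 : ‖gg p‖ ≤ 8 * (2 * ‖p‖ ^ 2) := by
      rw [← (gg_hasSum hp).tsum_eq]
      refine tsum_of_norm_bounded h2 fun n => ?_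
      refine (term_bd hp n).trans ?_
      have h4 : ‖p‖ ^ (n + 1) ≤ ‖p‖ := by
        have := pow_le_pow_of_le_one hp0 (by linarith) (show 1 ≤ n + 1 by omega)
        simpa using this
      have h5 : 0 ≤ 8 * (1 / 2) ^ n * ‖p‖ := by positivity
      calc 8 * (1 / 2) ^ n * ‖p‖ * ‖p‖ ^ (n + 1) ≤ 8 * (1 / 2) ^ n * ‖p‖ * ‖p‖ :=
            mul_le_mul_of_nonneg_left h4 h5
        _ = 8 * ((1 / 2) ^ n * ‖p‖ ^ 2) := by ring
    rw [norm_pow, norm_norm, sub_zero]
    linarith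
  exact (h.hasFDerivAt (by norm_num)).fderiv

theorem jE_ex_strictMono : StrictMono ex := by
  apply strictMono_nat_of_lt_succ
  intro n
  unfold ex
  exact (Nat.factorial_lt (Nat.succ_pos n)).2 (Nat.lt_succ_self _)

theorem jE_uniq (f : ℂ → ℂ) (a b : ℕ → ℂ)
    (ha : ∀ᶠ z in 𝓝 (0:ℂ), HasSum (fun n => z ^ n * a n) (f z))
    (hb : ∀ᶠ z in 𝓝 (0:ℂ), HasSum (fun n => z ^ n * b n) (f z)) : a = b := by
  have h1 : HasFPowerSeriesAt f (FormalMultilinearSeries.ofScalars ℂ a) 0 := by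
    rw [hasFPowerSeriesAt_iff]
    filter_upwards [ha] with z hz
    simpa [FormalMultilinearSeries.coeff_ofScalars] using hz
  have h2 : HasFPowerSeriesAt f (FormalMultilinearSeries.ofScalars ℂ b) 0 := by
    rw [hasFPowerSeriesAt_iff]
    filter_upwards [hb] with z hz
    simpa [FormalMultilinearSeries.coeff_ofScalars] using hz
  exact FormalMultilinearSeries.ofScalars_series_injective (𝕜 := ℂ) ℂ
    (h1.eq_formalMultilinearSeries h2)

/-- the curve -/
noncomputable def jE_u (τ : ℂ) : Fin 3 → ℂ := ![1, τ, E τ]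

theorem jE_u_analytic {τ : ℂ} (h : ‖τ‖ < 1) : AnalyticAt ℂ jE_u τ := by
  rw [show jE_u = fun τ => (fun i => jE_u τ i) from rfl]
  rw [analyticAt_pi_iff]
  intro i
  fin_cases i
  · exact analyticAt_const (v := (1:ℂ))
  · exact analyticAt_id
  · exact E_analytic h

theorem jE_coeff_analytic (n : ℕ) (q : (Fin 3 → ℂ) [×n]→L[ℂ] ℂ) {τ : ℂ} (h : ‖τ‖ < 1) :
    AnalyticAt ℂ (fun τ => q (fun _ => jE_u τ)) τ := by
  have h1 : AnalyticAt ℂ (fun τ => (fun _ : Fin n => jE_u τ)) τ := by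
    rw [analyticAt_pi_iff]
    intro i
    exact jE_u_analytic h
  exact AnalyticAt.fun_comp (g := fun v : Fin n → (Fin 3 → ℂ) => q v) q.analyticAt h1

theorem no_K (K : (Fin 3 → ℂ) → ℂ) (hK : AnalyticAt ℂ K 0)
    (h : ∀ᶠ p in 𝓝 (0 : ℂ × ℂ), K ![p.1, p.1 * p.2, p.1 * E p.2] = gg p) : False := by
  obtain ⟨p, r, hp⟩ := hK
  -- bound on coefficients
  obtain ⟨a, ha0, har⟩ := ENNReal.lt_iff_exists_nnreal_btwn.1 hp.r_pos
  have ha0' : (0 : ℝ) < a := by
    have : (0 : NNReal) < a := by exact_mod_cast ha0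
    exact_mod_cast this
  have har' : (a : ENNReal) < p.radius := lt_of_lt_of_le har hp.r_le
  obtain ⟨C, hC0, hC⟩ := p.norm_mul_pow_le_of_lt_radius har'
  -- the neighbourhood
  obtain ⟨ε, hε, hεh⟩ := Metric.eventually_nhds_iff.1 h
  set δ := min ε (1 / 8) with hδ
  have hδ0 : 0 < δ := lt_min hε (by norm_num)
  have key : ∀ τ : ℂ, ‖τ‖ < δ → ∀ k : ℕ, p (ex k) (fun _ => jE_u τ) = cc k * tl k τ := by
    intro τ hτ k
    have hinj : Function.Injective ex := jE_ex_strictMono.injective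
    set b : ℕ → ℂ := Function.extend ex (fun k => cc k * tl k τ) 0 with hb
    have hbk : ∀ k, b (ex k) = cc k * tl k τ := fun k => hinj.extend_apply _ _ k
    have hun : (fun n => p n (fun _ => jE_u τ)) = b := by
      apply jE_uniq (fun η => gg (η, τ))
      · -- from K
        have hev : ∀ᶠ η in 𝓝 (0:ℂ), ‖η‖ < δ ∧ ‖η • jE_u τ‖ₑ < r := by
          apply Filter.Eventually.and
          · have := Metric.ball_mem_nhds (0:ℂ) hδ0
            filter_upwards [this] with η hη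
            simpa using hη
          · have hcont : Continuous (fun η : ℂ => ‖η • jE_u τ‖ₑ) := by fun_prop
            have h0 : ‖(0:ℂ) • jE_u τ‖ₑ < r := by simpa using hp.r_pos
            exact hcont.continuousAt.eventually (IsOpen.mem_nhds isOpen_Iio h0)
        filter_upwards [hev] with η hη
        have h1 := hp.hasSum (y := η • jE_u τ) (by simpa [Metric.mem_eball, edist_zero_right] using hη.2)
        have h2 : K (0 + η • jE_u τ) = gg (η, τ) := by
          have h3 : (0 : Fin 3 → ℂ) + η • jE_u τ = ![η, η * τ, η * E τ] := by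
            rw [zero_add]
            funext i
            fin_cases i <;> simp [jE_u]
          rw [h3]
          refine @hεh (η, τ) ?_
          rw [dist_zero_right, Prod.norm_def]
          exact max_lt (lt_of_lt_of_le hη.1 (min_le_left _ _)) (lt_of_lt_of_le hτ (min_le_left _ _))
        rw [h2] at h1
        have h4 : (fun n => p n (fun _ => η • jE_u τ)) = fun n => η ^ n * p n (fun _ => jE_u τ) := by
          funext n
          have := (p n).map_smul_univ (fun _ => η) (fun _ => jE_u τ)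
          simpa using this
        rw [h4] at h1
        exact h1
      · have := Metric.ball_mem_nhds (0:ℂ) hδ0
        filter_upwards [this] with η hη
        have hη' : ‖η‖ < δ := by simpa using hη
        have h1 := gg_hasSum (p := (η, τ)) (by
          rw [Prod.norm_def]
          exact max_lt (lt_of_lt_of_le hη' (min_le_right _ _))
            (lt_of_lt_of_le hτ (min_le_right _ _)))
        simp only at h1
        rw [← hinj.hasSum_iff]
        · convert h1 using 2 with k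
          simp only [Function.comp]
          rw [hbk]; ring
        · intro n hn
          have : b n = 0 := by
            rw [hb, Function.extend_apply']
            · rfl
            · rintro ⟨k, hk⟩
              exact hn ⟨k, hk⟩
          rw [this, mul_zero]
    have := congrFun hun (ex k)
    rw [hbk] at this
    exact this
  -- identity theorem
  have hhalf : ∀ k : ℕ, p (ex k) (fun _ => jE_u (1/2)) = cc k * tl k (1/2) := by
    intro k
    have hA : AnalyticOnNhd ℂ (fun τ => p (ex k) (fun _ => jE_u τ)) (Metric.ball 0 1) := by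
      intro τ hτ
      exact jE_coeff_analytic _ _ (by simpa using hτ)
    have hB : AnalyticOnNhd ℂ (fun τ => cc k * tl k τ) (Metric.ball 0 1) := by
      intro τ hτ
      exact analyticAt_const.mul (tl_analytic (by simpa using hτ))
    have hev : (fun τ => p (ex k) (fun _ => jE_u τ)) =ᶠ[𝓝 0] (fun τ => cc k * tl k τ) := by
      have := Metric.ball_mem_nhds (0:ℂ) hδ0
      filter_upwards [this] with τ hτ
      exact key τ (by simpa using hτ) k
    have := hA.eqOn_of_preconnected_of_eventuallyEq hB (convex_ball (0:ℂ) 1).isPreconnected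
      (Metric.mem_ball_self one_pos) hev
    exact this (by rw [mem_ball_zero_iff]; norm_num)
  -- the estimate
  set U := ‖jE_u (1/2)‖ with hU
  have hU0 : 0 ≤ U := norm_nonneg _
  set B := U / a with hB
  have hB0 : 0 ≤ B := div_nonneg hU0 ha0'.le
  have hest : ∀ k : ℕ, ((2:ℝ) ^ (k + 2)) ^ ex k ≤ C * B ^ ex k := by
    intro k
    have hexk : ex (k + 1) = (k + 2) * ex k := by
      unfold ex
      rw [Nat.factorial_succ]
    have h1 : ‖cc k * tl k (1/2)‖ ≤ ‖p (ex k)‖ * U ^ ex k := by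
      rw [← hhalf k]
      have := (p (ex k)).le_opNorm (fun _ => jE_u (1/2))
      rw [Finset.prod_const, Finset.card_univ, Fintype.card_fin] at this
      exact this
    have h2 : (2:ℝ) ^ ex (k + 1) ≤ ‖cc k * tl k (1/2)‖ := by
      rw [norm_mul]
      have h3 : ‖cc k‖ = 4 ^ ex (k + 1) := by
        unfold cc
        rw [norm_pow]; norm_num
      rw [h3]
      calc (2:ℝ) ^ ex (k + 1) = 4 ^ ex (k + 1) * (1/2) ^ ex (k + 1) := by
            rw [← mul_pow]; norm_num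
        _ ≤ _ := by
            gcongr
            exact tl_half k
    have h4 : ‖p (ex k)‖ * U ^ ex k ≤ C * B ^ ex k := by
      have h5 := hC (ex k)
      have h6 : U ^ ex k = (a:ℝ) ^ ex k * B ^ ex k := by
        rw [← mul_pow, hB, mul_div_cancel₀ _ ha0'.ne']
      rw [h6, ← mul_assoc]
      gcongr
    calc ((2:ℝ) ^ (k + 2)) ^ ex k = 2 ^ ex (k + 1) := by rw [hexk, pow_mul]
      _ ≤ _ := h2
      _ ≤ _ := h1
      _ ≤ _ := h4
  -- contradiction
  obtain ⟨k1, hk1⟩ := pow_unbounded_of_one_lt (2 * (B + 1)) (one_lt_two (α := ℝ))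
  obtain ⟨k2, hk2⟩ := pow_unbounded_of_one_lt C (one_lt_two (α := ℝ))
  set k := max k1 k2 with hk
  have h1 : 2 * (B + 1) ≤ (2:ℝ) ^ (k + 2) := by
    refine hk1.le.trans (pow_le_pow_right₀ one_le_two ?_)
    have : k1 ≤ k := le_max_left _ _
    omega
  have h2 : C < (2:ℝ) ^ ex k := by
    refine lt_of_lt_of_le hk2 (pow_le_pow_right₀ one_le_two ?_)
    have : k2 ≤ k := le_max_right _ _
    have h3 : k ≤ ex k := jE_ex_strictMono.le_apply
    omega
  have h3 := hest k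
  have h4 : (2:ℝ) ^ ex k * (B + 1) ^ ex k ≤ ((2:ℝ) ^ (k + 2)) ^ ex k := by
    rw [← mul_pow]
    gcongr
  have h5 : C * B ^ ex k ≤ C * (B + 1) ^ ex k := by
    gcongr
    linarith
  have h6 : C * (B + 1) ^ ex k < (2:ℝ) ^ ex k * (B + 1) ^ ex k := by
    gcongr
  linarith

end Pool.Agent.Helper395.AA
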